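import Pool.Agent.U374.Cub.Lf

/-!
# The decomposition of the cohomology of the Fermat cubics of dimension one, three and five
-/

set_option autoImplicit false
set_option linter.unusedSectionVars false
set_option linter.unusedVariables false
set_option linter.style.haveILetI false

open scoped Classical

namespace Pool.Agent.U374.Cub

open Finset NumberField IsDedekindDomain

variable {k : Type} [Field k] [NumberField k]

/-- The eigenvalues `β`, `conj β` of the curve give those of the Fermat cubics. -/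
def FermatDec (k : Type) [Field k] [NumberField k] : Prop :=
  ∀ v : HeightOneSpectrum (𝓞 k), (3 : 𝓞 k) ∉ v.asIdeal →
    ∃ β : ℂ, β * (starRingEnd ℂ) β = Ideal.absNorm v.asIdeal ∧
      (Nat.card {P : (𝓞 k ⧸ v.asIdeal) × (𝓞 k ⧸ v.asIdeal) // P.2 ^ 2 + P.2 = P.1 ^ 3} : ℂ) =
        Ideal.absNorm v.asIdeal - (β + (starRingEnd ℂ) β) ∧
      ∀ c : ℕ, c ≤ 2 → ∀ (F : Type) [Field F] [Finite F] (f : 𝓞 k →+* F) (r : ℕ),
        RingHom.ker f = v.asIdeal → Nat.card F = Ideal.absNorm v.asIdeal ^ r →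
        (({x : Fin (2 * c + 3) → F | x ≠ 0 ∧ ∑ i, x i ^ 3 = 0}).ncard : ℂ) = (Nat.card F - 1) *
          (∑ i ∈ Finset.range (2 * c + 2), (Nat.card F : ℂ) ^ i - (2 * c + 3).choose c *
            (((Ideal.absNorm v.asIdeal : ℂ) ^ c * β) ^ r +
              ((Ideal.absNorm v.asIdeal : ℂ) ^ c * (starRingEnd ℂ) β) ^ r))

/-- **The Fermat cubics.** -/
theorem fermatDec (k : Type) [Field k] [NumberField k] : FermatDec k := by
  intro v h3
  obtain ⟨β, -, b2, b3⟩ := exists_bg v h3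
  have hone : (1 : 𝓞 k) ∉ v.asIdeal := fun hv =>
    v.isPrime.ne_top (Ideal.eq_top_of_isUnit_mem _ hv isUnit_one)
  have hq : (Pool.Agent.R432.V.qv v : ℂ) = (Ideal.absNorm v.asIdeal : ℂ) := by
    exact_mod_cast congrArg (fun n : ℕ => (n : ℂ)) (Pool.Agent.R432.V.qv_eq v)
  obtain ⟨h1, h2⟩ := b2 1 hone
  refine ⟨β 1, h2.trans hq, ?_, fun c hc F _ _ f r hf hF => ?_⟩
  · have h4 : (Nat.card {P : (𝓞 k ⧸ v.asIdeal) × (𝓞 k ⧸ v.asIdeal) // P.2 ^ 2 + P.2 = P.1 ^ 3} : ℂ) =
        (Pool.Agent.R432.V.cn (1 : 𝓞 k) v : ℂ) := by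
      unfold Pool.Agent.R432.V.cn
      simp only [map_one, one_mul]
    rw [h4, ← hq]
    linear_combination -h1
  · have h5 := b3 c hc (fun _ => (1 : 𝓞 k)) (fun _ => hone) F f r hf hF
    have h6 : sols (fun _ : Fin (2 * c + 3) => f 1) =
        {x : Fin (2 * c + 3) → F | x ≠ 0 ∧ ∑ i, x i ^ 3 = 0} := by
      ext x
      unfold sols
      simp only [map_one, one_mul]
    have h7 : ∀ T : Finset (Fin (2 * c + 3)),
        Pool.Agent.N883.DQ.Dt (fun _ : Fin (2 * c + 3) => (1 : 𝓞 k)) T = 1 := by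
      intro T
      unfold Pool.Agent.N883.DQ.Dt
      rw [Finset.prod_const_one, Finset.prod_const_one, one_mul]
    rw [h6, map_sum_sum] at h5
    simp only [two_sum, h7] at h5
    rw [Finset.sum_const, SS, Finset.card_powersetCard, Finset.card_univ, Fintype.card_fin,
      nsmul_eq_mul] at h5
    exact h5

end Pool.Agent.U374.Cub
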