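import Pool.Agent.N883.DQ.LK

/-!
# Diagonal cubic curves, threefolds and fivefolds over number fields: the partial `L`-functions
-/

set_option autoImplicit false
set_option linter.unusedSectionVars false
set_option linter.unusedVariables false
set_option linter.style.haveILetI false

open scoped Classical

namespace Pool.Agent.U374.Cub

open Finset NumberField IsDedekindDomain
open Pool.Agent.R432.V (qv cn ef qv_eq Tr ef_eq tr_norm)
open Pool.Agent.H921R2.TatePole (nm two_le_nm)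
open Pool.Agent.N883.DQ (Dt Dt_map IsBeta exists_beta sq_of q_ne Cn)

/-- The solutions, not all zero, of `∑ a i x i ^ 3 = 0` in the field `F`. -/
def sols {m : ℕ} {F : Type} [Field F] (a : Fin m → F) : Set (Fin m → F) :=
  {x | x ≠ 0 ∧ ∑ i, a i * x i ^ 3 = 0}

lemma sols_ncard {m : ℕ} {F : Type} [Field F] [Finite F] (a : Fin m → F) :
    ((sols a).ncard : ℂ) = (Nat.card (Cn a) : ℂ) - 1 := by
  have h1 : Nat.card (Cn a) = ({x : Fin m → F | ∑ i, a i * x i ^ 3 = 0}).ncard := by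
    rw [← Nat.card_coe_set_eq]
    rfl
  have h2 : {x : Fin m → F | ∑ i, a i * x i ^ 3 = 0} = insert 0 (sols a) := by
    ext x
    simp only [Set.mem_ofPred_eq, Set.mem_insert_iff, sols]
    constructor
    · intro h
      by_cases hx : x = 0
      · exact Or.inl hx
      · exact Or.inr ⟨hx, h⟩
    · rintro (rfl | h)
      · simp
      · exact h.2
  rw [h1, h2, Set.ncard_insert_of_notMem (by simp [sols]) (Set.toFinite _)]
  push_cast
  ring

section loc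
variable {K : Type} [Field K] [NumberField K]

/-- the eigenvalues of the Frobenius at `v` on `H^n` of `∑ a i x i ^ 3 = 0` -/
def IsFrob {c : ℕ} (a : Fin (2 * c + 3) → 𝓞 K) (v : HeightOneSpectrum (𝓞 K)) (A : Multiset ℂ) :
    Prop :=
  ∀ (F : Type) [Field F] [Finite F] (f : 𝓞 K →+* F) (r : ℕ), RingHom.ker f = v.asIdeal →
    Nat.card F = Ideal.absNorm v.asIdeal ^ r →
    ((sols fun i => f (a i)).ncard : ℂ) = (Nat.card F - 1) *
      (∑ i ∈ range (2 * c + 2), (Nat.card F : ℂ) ^ i - (A.map (fun α => α ^ r)).sum)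

/-- the index sets with `c` elements -/
def SS (c : ℕ) : Finset (Finset (Fin (2 * c + 3))) := univ.powersetCard c

/-- the two eigenvalues -/
noncomputable def two (c : ℕ) (q : ℂ) (β : ℂ) : Multiset ℂ :=
  {q ^ c * β, q ^ c * (starRingEnd ℂ) β}

lemma map_sum_sum {ι : Type} (S : Finset ι) (f : ι → Multiset ℂ) (g : ℂ → ℂ) :
    ((∑ T ∈ S, f T).map g).sum = ∑ T ∈ S, ((f T).map g).sum := by
  induction S using Finset.induction_on with
  | empty => simp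
  | insert a s ha ih =>
    rw [Finset.sum_insert ha, Finset.sum_insert ha, Multiset.map_add, Multiset.sum_add, ih]

lemma map_sum_prod {ι : Type} (S : Finset ι) (f : ι → Multiset ℂ) (g : ℂ → ℂ) :
    ((∑ T ∈ S, f T).map g).prod = ∏ T ∈ S, ((f T).map g).prod := by
  induction S using Finset.induction_on with
  | empty => simp
  | insert a s ha ih =>
    rw [Finset.sum_insert ha, Finset.prod_insert ha, Multiset.map_add, Multiset.prod_add, ih]

lemma card_sum_ms {ι : Type} (S : Finset ι) (f : ι → Multiset ℂ) :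
    (∑ T ∈ S, f T).card = ∑ T ∈ S, (f T).card := by
  induction S using Finset.induction_on with
  | empty => simp
  | insert a s ha ih =>
    rw [Finset.sum_insert ha, Finset.sum_insert ha, Multiset.card_add, ih]

lemma mem_sum_ms {ι : Type} (S : Finset ι) (f : ι → Multiset ℂ) {x : ℂ} (h : x ∈ ∑ T ∈ S, f T) :
    ∃ T ∈ S, x ∈ f T := by
  induction S using Finset.induction_on with
  | empty => simp at h
  | insert a s ha ih =>
    rw [Finset.sum_insert ha, Multiset.mem_add] at h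
    rcases h with h | h
    · exact ⟨a, Finset.mem_insert_self _ _, h⟩
    · obtain ⟨T, hT, hx⟩ := ih h
      exact ⟨T, Finset.mem_insert_of_mem hT, hx⟩

lemma two_prod (c : ℕ) (q β X : ℂ) : ((two c q β).map (fun α => (1 - α * X)⁻¹)).prod =
    (1 - q ^ c * β * X)⁻¹ * (1 - q ^ c * (starRingEnd ℂ) β * X)⁻¹ := by
  simp [two]

lemma two_sum (c : ℕ) (q β : ℂ) (r : ℕ) : ((two c q β).map (fun α => α ^ r)).sum =
    (q ^ c * β) ^ r + (q ^ c * (starRingEnd ℂ) β) ^ r := by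
  simp [two]

lemma two_card (c : ℕ) (q β : ℂ) : (two c q β).card = 2 := by
  simp [two]

/-- the eigenvalues at a place not dividing three -/
theorem exists_bg (v : HeightOneSpectrum (𝓞 K)) (h3 : (3 : 𝓞 K) ∉ v.asIdeal) :
    ∃ β : 𝓞 K → ℂ, (∀ δ z : 𝓞 K, z ∉ v.asIdeal → β (δ * z ^ 3) = β δ) ∧
      (∀ δ : 𝓞 K, δ ∉ v.asIdeal → Tr δ v (β δ)) ∧
      ∀ c : ℕ, c ≤ 2 → ∀ a : Fin (2 * c + 3) → 𝓞 K, (∀ i, a i ∉ v.asIdeal) →
        IsFrob a v (∑ T ∈ SS c, two c (nm v) (β (Dt a T))) := by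
  have hm : v.asIdeal.IsMaximal := v.isMaximal
  letI : Field (𝓞 K ⧸ v.asIdeal) := Ideal.Quotient.field v.asIdeal
  have hq : Nat.card (𝓞 K ⧸ v.asIdeal) = nm v := qv_eq v
  have hfin : Finite (𝓞 K ⧸ v.asIdeal) := by
    refine Nat.finite_of_card_ne_zero ?_
    rw [hq]
    have := two_le_nm v
    omega
  letI : Fintype (𝓞 K ⧸ v.asIdeal) := Fintype.ofFinite _
  have hcard : Fintype.card (𝓞 K ⧸ v.asIdeal) = nm v := by
    rw [← Nat.card_eq_fintype_card, hq]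
  have hne : ∀ x : 𝓞 K, x ∉ v.asIdeal → Ideal.Quotient.mk v.asIdeal x ≠ 0 := fun x hx => by
    rwa [Ne, Ideal.Quotient.eq_zero_iff_mem]
  obtain ⟨β, hβ⟩ := exists_beta (𝓞 K ⧸ v.asIdeal) (by
    have := hne 3 h3
    rwa [map_ofNat] at this)
  refine ⟨fun δ => β (Ideal.Quotient.mk v.asIdeal δ), fun δ z hz => ?_, fun δ hδ => ?_,
    fun c hc a ha => ?_⟩
  · show β (Ideal.Quotient.mk v.asIdeal (δ * z ^ 3)) = _
    rw [map_mul, map_pow]
    exact hβ.1 _ _ (hne z hz)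
  · obtain ⟨b1, b2⟩ := hβ.2.1 _ (hne δ hδ)
    have h1 : (qv v : ℂ) = Fintype.card (𝓞 K ⧸ v.asIdeal) := by
      rw [hcard]
      exact_mod_cast qv_eq v
    have h2 : (cn δ v : ℂ) = (Nat.card {p : (𝓞 K ⧸ v.asIdeal) × (𝓞 K ⧸ v.asIdeal) //
        p.2 ^ 2 + Ideal.Quotient.mk v.asIdeal δ * p.2 = p.1 ^ 3} : ℂ) := rfl
    refine ⟨?_, b1.trans h1.symm⟩
    rw [h1, h2, b2]
    ring
  · intro F _ _ f r hf hF
    letI alg : Algebra (𝓞 K ⧸ v.asIdeal) F :=
      (Ideal.Quotient.lift v.asIdeal f (fun x hx => by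
        rw [← hf] at hx
        exact hx)).toAlgebra
    haveI : Module.Finite (𝓞 K ⧸ v.asIdeal) F := Module.Finite.of_finite
    have hfr : Module.finrank (𝓞 K ⧸ v.asIdeal) F = r := by
      have h5 := Module.natCard_eq_pow_finrank (K := 𝓞 K ⧸ v.asIdeal) (V := F)
      rw [hF, hq] at h5
      exact (Nat.pow_right_injective (two_le_nm v) h5).symm
    have h1 := hβ.2.2 c hc (fun i => Ideal.Quotient.mk v.asIdeal (a i)) (fun i => hne _ (ha i)) F
    have h2 : (fun i => algebraMap (𝓞 K ⧸ v.asIdeal) F (Ideal.Quotient.mk v.asIdeal (a i))) =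
        fun i => f (a i) := by
      funext i
      rfl
    have h3 : ∀ T, Dt (fun i => Ideal.Quotient.mk v.asIdeal (a i)) T =
        Ideal.Quotient.mk v.asIdeal (Dt a T) :=
      fun T => Dt_map (Ideal.Quotient.mk v.asIdeal) a T
    simp only [h3, hfr, hcard] at h1
    rw [h2] at h1
    have h4 := sols_ncard (fun i => f (a i))
    rw [h1] at h4
    have hgeom : ((Nat.card F : ℂ) - 1) * ∑ i ∈ Finset.range (2 * c + 1 + 1), (Nat.card F : ℂ) ^ i =
        (Nat.card F : ℂ) ^ (2 * c + 2) - 1 := by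
      rw [mul_comm]
      exact geom_sum_mul _ _
    refine h4.trans ?_
    rw [map_sum_sum]
    simp only [two_sum]
    unfold SS
    linear_combination -hgeom

/-- `L` is entire and equal to the Euler product of `L(H^n, s)` over the places not dividing `B` -/
def IsLB {c : ℕ} (a : Fin (2 * c + 3) → 𝓞 K) (B : 𝓞 K) (L : ℂ → ℂ) : Prop :=
  Differentiable ℂ L ∧ ∃ A : HeightOneSpectrum (𝓞 K) → Multiset ℂ,
    (∀ v, B ∉ v.asIdeal → IsFrob a v (A v) ∧ (A v).card = 2 * (2 * c + 3).choose c ∧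
      ∀ α ∈ A v, ‖α‖ ^ 2 = (Ideal.absNorm v.asIdeal : ℝ) ^ (2 * c + 1)) ∧
    ∀ s : ℂ, (2 * c + 1 : ℝ) / 2 + 1 < s.re →
      HasProd (fun v : {v : HeightOneSpectrum (𝓞 K) // B ∉ v.asIdeal} =>
        ((A v.1).map (fun α => (1 - α * (Ideal.absNorm v.1.asIdeal : ℂ) ^ (-s))⁻¹)).prod) (L s)

lemma dt_notMem {m : ℕ} {a : Fin m → 𝓞 K} {v : HeightOneSpectrum (𝓞 K)}
    (ha : ∀ i, a i ∉ v.asIdeal) (T : Finset (Fin m)) : Dt a T ∉ v.asIdeal := by
  intro h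
  unfold Dt at h
  have hpr := v.isPrime
  rcases hpr.mem_or_mem h with h | h
  · obtain ⟨i, -, hi⟩ := (Ideal.IsPrime.prod_mem_iff).1 h
    exact ha i hi
  · obtain ⟨i, -, hi⟩ := (Ideal.IsPrime.prod_mem_iff).1 h
    exact ha i hi

/-- the factor of one curve -/
lemma fac_two {δ : 𝓞 K} {v : HeightOneSpectrum (𝓞 K)} {β : ℂ} (h : Tr δ v β) (c : ℕ) (s : ℂ) :
    ((two c (nm v) β).map (fun α => (1 - α * (nm v : ℂ) ^ (-s))⁻¹)).prod = ef δ (s - c) v := by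
  have hq : (qv v : ℂ) = (nm v : ℂ) := by exact_mod_cast qv_eq v
  have hq0 := q_ne v
  rw [ef_eq h, two_prod]
  have e : (qv v : ℂ) ^ (-(s - c)) = (nm v : ℂ) ^ c * (nm v : ℂ) ^ (-s) := by
    rw [hq] at hq0 ⊢
    rw [show -(s - (c : ℂ)) = (c : ℂ) + -s by ring, Complex.cpow_add _ _ hq0,
      Complex.cpow_natCast]
  rw [e, mul_inv]
  congr 2 <;> ring

/-- **The Euler product from those of the curves.** -/
theorem core {c : ℕ} (hc : c ≤ 2) {a : Fin (2 * c + 3) → 𝓞 K} {B : 𝓞 K}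
    (h3 : ∀ v : HeightOneSpectrum (𝓞 K), B ∉ v.asIdeal → (3 : 𝓞 K) ∉ v.asIdeal)
    (ha : ∀ v : HeightOneSpectrum (𝓞 K), B ∉ v.asIdeal → ∀ i, a i ∉ v.asIdeal)
    {δ : Finset (Fin (2 * c + 3)) → 𝓞 K}
    (hδ : ∀ T ∈ SS c, ∀ v : HeightOneSpectrum (𝓞 K), B ∉ v.asIdeal →
      ∃ z z' : 𝓞 K, z ∉ v.asIdeal ∧ z' ∉ v.asIdeal ∧ Dt a T * z' ^ 3 = δ T * z ^ 3) :
    ∃ A : HeightOneSpectrum (𝓞 K) → Multiset ℂ,
      (∀ v, B ∉ v.asIdeal → IsFrob a v (A v) ∧ (A v).card = 2 * (2 * c + 3).choose c ∧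
        ∀ α ∈ A v, ‖α‖ ^ 2 = (Ideal.absNorm v.asIdeal : ℝ) ^ (2 * c + 1)) ∧
      ∀ (s : ℂ) (l : Finset (Fin (2 * c + 3)) → ℂ), (∀ T ∈ SS c,
        HasProd (fun v : {v : HeightOneSpectrum (𝓞 K) | B ∉ v.asIdeal} => ef (δ T) (s - c) v.1)
          (l T)) →
        HasProd (fun v : {v : HeightOneSpectrum (𝓞 K) // B ∉ v.asIdeal} =>
          ((A v.1).map (fun α => (1 - α * (Ideal.absNorm v.1.asIdeal : ℂ) ^ (-s))⁻¹)).prod)
          (∏ T ∈ SS c, l T) := by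
  have hch : ∀ v : HeightOneSpectrum (𝓞 K), ∃ β : 𝓞 K → ℂ, (3 : 𝓞 K) ∉ v.asIdeal →
      (∀ δ z : 𝓞 K, z ∉ v.asIdeal → β (δ * z ^ 3) = β δ) ∧
      (∀ δ : 𝓞 K, δ ∉ v.asIdeal → Tr δ v (β δ)) ∧
      ∀ c : ℕ, c ≤ 2 → ∀ a : Fin (2 * c + 3) → 𝓞 K, (∀ i, a i ∉ v.asIdeal) →
        IsFrob a v (∑ T ∈ SS c, two c (nm v) (β (Dt a T))) := by
    intro v
    by_cases h : (3 : 𝓞 K) ∈ v.asIdeal
    · exact ⟨0, fun h' => absurd h h'⟩
    · obtain ⟨β, hβ⟩ := exists_bg v h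
      exact ⟨β, fun _ => hβ⟩
  choose β hβ using hch
  refine ⟨fun v => ∑ T ∈ SS c, two c (nm v) (β v (Dt a T)), fun v hv => ?_, fun s l hl => ?_⟩
  · obtain ⟨-, b2, b3⟩ := hβ v (h3 v hv)
    refine ⟨b3 c hc a (ha v hv), ?_, fun α hα => ?_⟩
    · rw [card_sum_ms]
      simp only [two_card]
      rw [Finset.sum_const, SS, Finset.card_powersetCard, Finset.card_univ, Fintype.card_fin,
        smul_eq_mul, mul_comm]
    · obtain ⟨T, -, hT⟩ := mem_sum_ms _ _ hα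
      obtain ⟨-, h5⟩ := b2 _ (dt_notMem (ha v hv) T)
      have hq : (qv v : ℂ) = (nm v : ℂ) := by exact_mod_cast qv_eq v
      rw [hq] at h5
      unfold two at hT
      have h6 : α = (nm v : ℂ) ^ c * β v (Dt a T) ∨
          α = (nm v : ℂ) ^ c * (starRingEnd ℂ) (β v (Dt a T)) := by simpa using hT
      rcases h6 with rfl | rfl
      · exact sq_of h5 c
      · refine sq_of ?_ c
        rw [Complex.conj_conj, mul_comm]
        exact h5
  · have h1 := hasProd_prod (s := SS c) fun T hT => hl T hT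
    refine h1.congr_fun fun v => ?_
    obtain ⟨b1, b2, -⟩ := hβ v.1 (h3 v.1 v.2)
    show ((∑ T ∈ SS c, two c (nm v.1) (β v.1 (Dt a T))).map _).prod = _
    rw [map_sum_prod]
    refine Finset.prod_congr rfl fun T hT => ?_
    obtain ⟨z, z', hz, hz', hzz⟩ := hδ T hT v.1 v.2
    have e1 : β v.1 (Dt a T) = β v.1 (δ T) := by
      rw [← b1 (Dt a T) z' hz', hzz, b1 _ z hz]
    have h7 : δ T ∉ v.1.asIdeal := by
      intro h
      have h8 : Dt a T * z' ^ 3 ∈ v.1.asIdeal := by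
        rw [hzz]
        exact Ideal.mul_mem_right _ _ h
      rcases v.1.isPrime.mem_or_mem h8 with h9 | h9
      · exact dt_notMem (ha v.1 v.2) T h9
      · exact hz' (v.1.isPrime.mem_of_pow_mem 3 h9)
    rw [e1]
    exact fac_two (b2 _ h7) c s

/-- **The partial `L`-function from those of the curves.** -/
theorem isLB_of {c : ℕ} (hc : c ≤ 2) {a : Fin (2 * c + 3) → 𝓞 K} {B : 𝓞 K}
    (h3 : ∀ v : HeightOneSpectrum (𝓞 K), B ∉ v.asIdeal → (3 : 𝓞 K) ∉ v.asIdeal)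
    (ha : ∀ v : HeightOneSpectrum (𝓞 K), B ∉ v.asIdeal → ∀ i, a i ∉ v.asIdeal)
    {δ : Finset (Fin (2 * c + 3)) → 𝓞 K}
    (hδ : ∀ T ∈ SS c, ∀ v : HeightOneSpectrum (𝓞 K), B ∉ v.asIdeal →
      ∃ z z' : 𝓞 K, z ∉ v.asIdeal ∧ z' ∉ v.asIdeal ∧ Dt a T * z' ^ 3 = δ T * z ^ 3)
    {L : Finset (Fin (2 * c + 3)) → ℂ → ℂ} (hL : ∀ T ∈ SS c, Differentiable ℂ (L T))
    (hp : ∀ T ∈ SS c, ∀ s : ℂ, 3 / 2 < s.re →
      HasProd (fun v : {v : HeightOneSpectrum (𝓞 K) | B ∉ v.asIdeal} => ef (δ T) s v.1) (L T s)) :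
    IsLB a B (fun s => ∏ T ∈ SS c, L T (s - c)) := by
  obtain ⟨A, h1, h2⟩ := core hc h3 ha hδ
  refine ⟨Differentiable.fun_finsetProd fun T hT =>
      (hL T hT).comp (differentiable_id.sub_const (c : ℂ)), A, h1, fun s hs => h2 s _ fun T hT => ?_⟩
  refine hp T hT (s - c) ?_
  rw [Complex.sub_re, Complex.natCast_re]
  linarith

/-- `L` is meromorphic and equal to the Euler product of `L(H^n, s)` over the places not dividing `B` -/
def IsLM {c : ℕ} (a : Fin (2 * c + 3) → 𝓞 K) (B : 𝓞 K) (L : ℂ → ℂ) : Prop :=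
  MeromorphicOn L Set.univ ∧ ∃ A : HeightOneSpectrum (𝓞 K) → Multiset ℂ,
    (∀ v, B ∉ v.asIdeal → IsFrob a v (A v) ∧ (A v).card = 2 * (2 * c + 3).choose c ∧
      ∀ α ∈ A v, ‖α‖ ^ 2 = (Ideal.absNorm v.asIdeal : ℝ) ^ (2 * c + 1)) ∧
    ∀ s : ℂ, (c + 2 : ℝ) < s.re →
      HasProd (fun v : {v : HeightOneSpectrum (𝓞 K) // B ∉ v.asIdeal} =>
        ((A v.1).map (fun α => (1 - α * (Ideal.absNorm v.1.asIdeal : ℂ) ^ (-s))⁻¹)).prod) (L s)

/-- **The Fermat hypersurfaces, or those isomorphic to them, from one curve.** -/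
theorem isLM_of {c : ℕ} (hc : c ≤ 2) {a : Fin (2 * c + 3) → 𝓞 K} {B δ : 𝓞 K}
    (h3 : ∀ v : HeightOneSpectrum (𝓞 K), B ∉ v.asIdeal → (3 : 𝓞 K) ∉ v.asIdeal)
    (ha : ∀ v : HeightOneSpectrum (𝓞 K), B ∉ v.asIdeal → ∀ i, a i ∉ v.asIdeal)
    (hδ : ∀ T ∈ SS c, ∀ v : HeightOneSpectrum (𝓞 K), B ∉ v.asIdeal →
      ∃ z z' : 𝓞 K, z ∉ v.asIdeal ∧ z' ∉ v.asIdeal ∧ Dt a T * z' ^ 3 = δ * z ^ 3)
    {L : ℂ → ℂ} (hm : MeromorphicOn L Set.univ) (ha1 : AnalyticAt ℂ L 1) (h1 : L 1 ≠ 0)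
    (hp : ∀ s : ℂ, 2 < s.re →
      HasProd (fun v : {v : HeightOneSpectrum (𝓞 K) | B ∉ v.asIdeal} => ef δ s v.1) (L s)) :
    ∃ Lf : ℂ → ℂ, IsLM a B Lf ∧ AnalyticAt ℂ Lf (c + 1) ∧ Lf (c + 1) ≠ 0 := by
  obtain ⟨A, h5, h6⟩ := core hc h3 ha (δ := fun _ => δ) hδ
  have hsub : ∀ s : ℂ, AnalyticAt ℂ (fun s : ℂ => s - (c : ℂ)) s := fun s =>
    analyticAt_id.sub analyticAt_const
  have hc1 : ((c : ℂ) + 1) - c = 1 := add_sub_cancel_left _ _
  have ha2 : AnalyticAt ℂ (fun s : ℂ => L (s - c)) (c + 1) := by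
    have h7 : AnalyticAt ℂ L ((fun s : ℂ => s - (c : ℂ)) (c + 1)) := by
      beta_reduce
      rw [hc1]
      exact ha1
    exact AnalyticAt.comp (g := L) (f := fun s : ℂ => s - (c : ℂ)) h7 (hsub _)
  refine ⟨fun s => ∏ _T ∈ SS c, L (s - c), ⟨fun s _ => ?_, A, h5, fun s hs => ?_⟩, ?_, ?_⟩
  · refine MeromorphicAt.fun_prod fun T _ => ?_
    have h7 : MeromorphicAt L ((fun s : ℂ => s - (c : ℂ)) s) := hm _ (Set.mem_univ _)
    exact MeromorphicAt.comp_analyticAt (f := L) (g := fun s : ℂ => s - (c : ℂ)) h7 (hsub s)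
  · refine h6 s (fun _ => L (s - c)) fun T hT => hp (s - c) ?_
    rw [Complex.sub_re, Complex.natCast_re]
    linarith
  · exact Finset.analyticAt_fun_prod _ fun T _ => ha2
  · beta_reduce
    refine Finset.prod_ne_zero_iff.2 fun T _ => ?_
    rw [hc1]
    exact h1

end loc

end Pool.Agent.U374.Cub
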