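import Pool.Agent.U374.Cub.Forms
import Pool.Agent.U374.BK.Tower
import Pool.Agent.Y655.XT.Shavc

/-!
# The Selmer groups of Bloch and Kato of the curves in the intermediate Jacobians of the diagonal
# cubic hypersurfaces, over `K` and over the fixed fields `F = K(∛d₁, …, ∛dₙ)`
-/

set_option autoImplicit false
set_option linter.unusedSectionVars false
set_option linter.unusedVariables false
set_option linter.style.haveILetI false

open scoped Classical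

namespace Pool.Agent.U374.Cub

open NumberField WeierstrassCurve IsDedekindDomain Module
open Pool.Agent.Y692.QS (Ei w nr toC)
open Pool.Agent.Y703.CT (Dt pD Ker ClsE)
open Pool.Agent.TH841.NF.D (Sha)
open Pool.Agent.Y696.CTK (ED ED_Δ Tri Parts parts ClsK)
open Pool.Agent.Y699.E (prm prm_ne_zero)
open Pool.Agent.U854.TW (Family mt mt_three mt_nine d_ne data_of perF)
open Pool.Agent.Y700 (VR)
open Pool.Agent.U374.BK (BZ bz_of)

/-- the Tate-Shafarevich group of a twist by a cube -/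
theorem sha_tw {L : Type} [Field L] [NumberField L] {d d' u : L} (hu : u ≠ 0) (hd : d ≠ 0)
    (h : d' = d * u ^ 3) {m : ℕ}
    (hS : ∀ (k : ℕ) (y : Sha (ED d)), 3 ^ k • y = 0 → 3 ^ m • y = 0) :
    ∀ (k : ℕ) (y : Sha (ED d')), 3 ^ k • y = 0 → 3 ^ m • y = 0 := by
  have hvr : VR (ED d') (ED d) u 0 0 0 := by
    refine ⟨hu, ?_, ?_, ?_, ?_, ?_⟩ <;> simp [ED]
    rw [h]
    ring
  have hΔ : (ED d).Δ ≠ 0 := by
    rw [ED_Δ]
    exact mul_ne_zero (by norm_num) (pow_ne_zero _ hd)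
  let I : Sha (ED d) ≃+ Sha (ED d') := (Pool.Agent.Y655.XT.isoVR hvr hΔ).sha
  intro k y hy
  have h1 := hS k (I.symm y) (by rw [← map_nsmul, hy, map_zero])
  rw [← map_nsmul] at h1
  have h2 := congrArg I h1
  rwa [I.apply_symm_apply, map_zero] at h2

/-- the second twist over `K` -/
theorem sha_sq {K : Type} [Field K] [NumberField K] (j : Ei ≃+* 𝓞 K) {D m : Ei} (hD : ClsE D)
    (hm : prm m) (h9 : (9 : ℤ) ∣ nr m - 1) (hT : Tri (j (D * m))) :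
    ∀ (k : ℕ) (y : Sha (ED (((j (D * m) : 𝓞 K) : K) ^ 2))), 3 ^ k • y = 0 → 3 ^ 0 • y = 0 := by
  obtain ⟨J, i1, i2, π, e, x, d1, d2, d3, d4, d5⟩ := data_of j hD hm h9 hT
  have h := (Pool.Agent.R419.CE.both parts j d1 d2 d3).2.2
  have hp0 : pD π e ≠ 0 := Pool.Agent.Y153.CTRAM.ne_zero_of d1
  have c0 : ∀ z : Ei, z ≠ 0 → ((j z : 𝓞 K) : K) ≠ 0 := fun z hz hh => hz
    ((map_eq_zero_iff j j.injective).1 (RingOfIntegers.ext hh))
  refine sha_tw (u := ((j x : 𝓞 K) : K) ^ 2) (pow_ne_zero 2 (c0 x d4))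
    (c0 _ (pow_ne_zero 2 hp0)) ?_ (fun k y hy => by rw [h k y hy, smul_zero])
  rw [d5]
  push_cast [map_mul, map_pow]
  ring

/-- both twists by one element over `K` -/
theorem sqK (K : Type) [Field K] [NumberField K] [IsCyclotomicExtension {3} ℚ K] {n : ℕ}
    {d : Fin n → 𝓞 K} (hd : Family d) {D : 𝓞 K} (hD : ClsK D) {t : Fin n → ZMod 3}
    (hT : Tri (D * mt d t)) :
    Finite (ED (((D * mt d t : 𝓞 K) : K) ^ 2)).toAffine.Point ∧
      ∀ (k : ℕ) (y : Sha (ED (((D * mt d t : 𝓞 K) : K) ^ 2))), 3 ^ k • y = 0 → 3 ^ 0 • y = 0 := by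
  obtain ⟨⟨j, hj⟩, -⟩ := Pool.Agent.Y455.CTK.jex K
  obtain ⟨z, rfl⟩ := j.surjective D
  obtain ⟨y, hy⟩ := j.surjective (mt d t)
  have hz : ClsE z := (Pool.Agent.Y696.XK.cls_iff j hj z).1 hD
  have h3 := mt_three hd t
  have h9 := mt_nine hd t
  rw [← hy] at h3 h9 hT ⊢
  have hy3 : prm y := by
    have e1 : j y - 1 = j (y - 1) := by rw [map_sub, map_one]
    rw [e1, ← map_ofNat j 3, map_dvd_iff j] at h3
    exact h3
  have hy9 : (9 : ℤ) ∣ nr y - 1 := by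
    rw [hj] at h9
    exact h9
  rw [← map_mul] at hT ⊢
  exact ⟨fin_sq j hz hy3 hy9 hT, sha_sq j hz hy3 hy9 hT⟩

/-- **The second twist over the fixed fields: the Tate-Shafarevich group.** -/
theorem shaN (K : Type) [Field K] [NumberField K] [IsCyclotomicExtension {3} ℚ K] {n : ℕ}
    {d : Fin n → 𝓞 K} (hd : Family d) {D : 𝓞 K} (hD : ClsK D) (htri : ∀ t, Tri (D * mt d t))
    {F : Type} [Field F] [NumberField F] [Algebra K F] (x : Fin n → F)
    (hx : ∀ i, x i ^ 3 = algebraMap K F (d i : K))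
    (hgen : ∀ L : Subfield F, (∀ k : K, algebraMap K F k ∈ L) → (∀ i, x i ∈ L) → L = ⊤) :
    ∀ (k : ℕ) (y : Sha (ED ((algebraMap K F (D : K)) ^ 2))), 3 ^ k • y = 0 → 3 ^ n • y = 0 := by
  obtain ⟨⟨j, hj⟩, -⟩ := Pool.Agent.Y455.CTK.jex K
  have hω := Pool.Agent.R432.C.om_K j
  have hD00 : D ≠ 0 := by
    rintro rfl
    exact not_squarefree_zero hD.2.1
  obtain ⟨hfd, hgal⟩ := Pool.Agent.R432.C.gal3 (F := F) hω (I := Fin n) (fun i => (d i : K)) x hx hgen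
  have hd0 : ∀ i, (d i : K) ≠ 0 := fun i h => d_ne hd i (by exact_mod_cast h)
  have hD0 : (D : K) ≠ 0 := fun h => hD00 (RingOfIntegers.ext h)
  rw [← map_pow]
  intro k y hy
  have h1 := Pool.Agent.R432.C.cubic hω (fun i => (d i : K)) x hd0 hx hgen (pow_ne_zero 2 hD0)
    (fun t => by
      obtain ⟨-, h8⟩ := sqK K hd hD (htri (fun i => -t i))
      have hA0 : ∏ i, (d i : K) ≠ 0 := Finset.prod_ne_zero_iff.2 fun i _ => hd0 i
      have hB0 : ∏ i, (d i : K) ^ k2 (t i) ≠ 0 :=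
        Finset.prod_ne_zero_iff.2 fun i _ => pow_ne_zero _ (hd0 i)
      have hC0 : ∏ i, (d i : K) ^ (-t i).val ≠ 0 :=
        Finset.prod_ne_zero_iff.2 fun i _ => pow_ne_zero _ (hd0 i)
      have hcoe : ((D * mt d (fun i => -t i) : 𝓞 K) : K) =
          (D : K) * ∏ i, (d i : K) ^ (-t i).val := by
        unfold Pool.Agent.U854.TW.mt
        push_cast
        rfl
      rw [hcoe] at h8
      have h9 := prod_k2 (fun i => (d i : K)) t
      have h10 := sha_tw (u := (∏ i, (d i : K) ^ k2 (t i)) / ∏ i, (d i : K)) (div_ne_zero hB0 hA0)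
        (pow_ne_zero 2 (mul_ne_zero hD0 hC0))
        (show (D : K) ^ 2 * ∏ i, (d i : K) ^ (t i).val = _ by
          rw [div_pow, mul_pow, ← mul_div_assoc, eq_div_iff (pow_ne_zero 3 hA0)]
          linear_combination (D : K) ^ 2 * h9) h8
      intro k y hy
      have h11 := h10 k y hy
      rw [pow_zero] at h11
      exact (one_nsmul y).symm.trans h11) k y hy
  rw [Fintype.card_fin] at h1
  exact h1

section decomp
variable {K : Type} [Field K] [NumberField K]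

/-- the decomposition of the cohomology of the hypersurface -/
def Decomp {c : ℕ} (a : Fin (2 * c + 3) → 𝓞 K) (B : 𝓞 K) : Prop :=
  ∀ v : HeightOneSpectrum (𝓞 K), B ∉ v.asIdeal →
    ∃ β : Finset (Fin (2 * c + 3)) → ℂ,
      (∀ T, β T * (starRingEnd ℂ) (β T) = Ideal.absNorm v.asIdeal ∧
        (Nat.card {P : (𝓞 K ⧸ v.asIdeal) × (𝓞 K ⧸ v.asIdeal) //
          P.2 ^ 2 + Ideal.Quotient.mk v.asIdeal ((∏ i, a i) * ∏ i ∈ T, a i) * P.2 = P.1 ^ 3} : ℂ) =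
            Ideal.absNorm v.asIdeal - (β T + (starRingEnd ℂ) (β T))) ∧
      ∀ (F : Type) [Field F] [Finite F] (f : 𝓞 K →+* F) (r : ℕ), RingHom.ker f = v.asIdeal →
        Nat.card F = Ideal.absNorm v.asIdeal ^ r →
        ((sols fun i => f (a i)).ncard : ℂ) = (Nat.card F - 1) *
          (∑ i ∈ Finset.range (2 * c + 2), (Nat.card F : ℂ) ^ i -
            ∑ T ∈ (Finset.univ : Finset (Fin (2 * c + 3))).powersetCard c,
              (((Ideal.absNorm v.asIdeal : ℂ) ^ c * β T) ^ r +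
                ((Ideal.absNorm v.asIdeal : ℂ) ^ c * (starRingEnd ℂ) (β T)) ^ r))

/-- **The decomposition.** -/
theorem decomp_of {c : ℕ} (hc : c ≤ 2) {a : Fin (2 * c + 3) → 𝓞 K} {B : 𝓞 K}
    (h3 : ∀ v : HeightOneSpectrum (𝓞 K), B ∉ v.asIdeal → (3 : 𝓞 K) ∉ v.asIdeal)
    (ha : ∀ v : HeightOneSpectrum (𝓞 K), B ∉ v.asIdeal → ∀ i, a i ∉ v.asIdeal) : Decomp a B := by
  intro v hv
  obtain ⟨β, -, b2, b3⟩ := exists_bg v (h3 v hv)
  have hq : (Pool.Agent.R432.V.qv v : ℂ) = (Ideal.absNorm v.asIdeal : ℂ) := by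
    exact_mod_cast congrArg (fun n : ℕ => (n : ℂ)) (Pool.Agent.R432.V.qv_eq v)
  refine ⟨fun T => β (Pool.Agent.N883.DQ.Dt a T), fun T => ?_, fun F _ _ f r hf hF => ?_⟩
  · obtain ⟨h1, h2⟩ := b2 _ (dt_notMem (ha v hv) T)
    refine ⟨h2.trans hq, ?_⟩
    have h4 : (Nat.card {P : (𝓞 K ⧸ v.asIdeal) × (𝓞 K ⧸ v.asIdeal) //
        P.2 ^ 2 + Ideal.Quotient.mk v.asIdeal ((∏ i, a i) * ∏ i ∈ T, a i) * P.2 = P.1 ^ 3} : ℂ) =
        (Pool.Agent.R432.V.cn (Pool.Agent.N883.DQ.Dt a T) v : ℂ) := rfl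
    rw [h4, ← hq]
    linear_combination -h1
  · have h1 := b3 c hc a (ha v hv) F f r hf hF
    rw [map_sum_sum] at h1
    simp only [two_sum] at h1
    exact h1

end decomp

/-- the curve of a set of indices, from the relation of `star` -/
theorem bz_rel {L : Type} [Field L] [NumberField L] {δ δ' z z' : 𝓞 L} (hδ : δ ≠ 0) (hz : z ≠ 0)
    (hz' : z' ≠ 0) (h : δ' * z' ^ 3 = δ * z ^ 3) (hf : Finite (ED (δ : L)).toAffine.Point) {m : ℕ}
    (hS : ∀ (k : ℕ) (y : Sha (ED (δ : L))), 3 ^ k • y = 0 → 3 ^ m • y = 0) :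
    BZ (ED (δ' : L)) := by
  have c0 : ∀ x : 𝓞 L, x ≠ 0 → (x : L) ≠ 0 := fun x hx hh => hx (RingOfIntegers.ext hh)
  have h5 := congrArg (fun x : 𝓞 L => (x : L)) h
  push_cast at h5
  have h6 : (δ' : L) = (δ : L) * ((z : L) / (z' : L)) ^ 3 := by
    rw [div_pow, ← mul_div_assoc, eq_div_iff (pow_ne_zero 3 (c0 _ hz'))]
    exact h5
  have hu : (z : L) / (z' : L) ≠ 0 := div_ne_zero (c0 _ hz) (c0 _ hz')
  refine bz_of ?_ (fin_tw hu (c0 _ hδ) h6 hf) (sha_tw hu (c0 _ hδ) h6 hS)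
  rw [h6]
  exact mul_ne_zero (c0 _ hδ) (pow_ne_zero 3 hu)

/-- **The curves over `K`.** -/
theorem bz_K (K : Type) [Field K] [NumberField K] [IsCyclotomicExtension {3} ℚ K] {n : ℕ}
    {d : Fin n → 𝓞 K} (hd : Family d) {D : 𝓞 K} (hD : ClsK D) (htri : ∀ t, Tri (D * mt d t))
    {c : ℕ} (hc : c ≤ 2) {a : Fin (2 * c + 3) → 𝓞 K} (ha : Belongs d D a) :
    Decomp a (3 * D * ∏ i, d i) ∧
      ∀ T : Finset (Fin (2 * c + 3)), BZ (ED (((∏ i, a i) * ∏ i ∈ T, a i : 𝓞 K) : K)) := by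
  have hD0 : D ≠ 0 := by
    rintro rfl
    exact not_squarefree_zero hD.2.1
  have hd0 := fun i => d_ne hd i
  have hm0 : ∀ t, mt d t ≠ 0 := fun t =>
    Finset.prod_ne_zero_iff.2 fun i _ => pow_ne_zero _ (d_ne hd i)
  have hsm : ∀ z, Sm d D z → ∀ v : HeightOneSpectrum (𝓞 K), 3 * D * ∏ i, d i ∉ v.asIdeal →
      z ∉ v.asIdeal := fun z hz v hv => sm_not (RingHom.id (𝓞 K)) v.isPrime hz hv
  refine ⟨decomp_of hc (fun v hv h => hv ?_) (fun v hv i => hsm _ (sm_coef ha i) v hv), fun T => ?_⟩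
  · rw [mul_assoc]
    exact Ideal.mul_mem_right _ _ h
  · obtain ⟨t, k, z, z', hk, hz, hz', hrel⟩ := star ha T
    have hT := htri t
    have hb : Finite (ED ((((D * mt d t) ^ k : 𝓞 K)) : K)).toAffine.Point ∧
        ∀ (l : ℕ) (y : Sha (ED ((((D * mt d t) ^ k : 𝓞 K)) : K))), 3 ^ l • y = 0 → 3 ^ 0 • y = 0 := by
      rcases hk with rfl | rfl
      · rw [pow_one]
        exact ⟨hT.1, fun l y hy => by rw [hT.2 l y hy, smul_zero]⟩
      · have h1 := sqK K hd hD hT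
        have e1 : ((((D * mt d t) ^ 2 : 𝓞 K)) : K) = ((D * mt d t : 𝓞 K) : K) ^ 2 := by push_cast; rfl
        rw [e1]
        exact h1
    exact bz_rel (δ := (D * mt d t) ^ k) (pow_ne_zero _ (mul_ne_zero hD0 (hm0 t)))
      (sm_ne hD0 hd0 hz) (sm_ne hD0 hd0 hz') hrel hb.1 hb.2

/-- **The curves over the fixed fields.** -/
theorem bz_F (K : Type) [Field K] [NumberField K] [IsCyclotomicExtension {3} ℚ K] {n : ℕ}
    {d : Fin n → 𝓞 K} (hd : Family d) {D : 𝓞 K} (hD : ClsK D) (htri : ∀ t, Tri (D * mt d t))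
    {F : Type} [Field F] [NumberField F] [Algebra K F] (x : Fin n → F)
    (hx : ∀ i, x i ^ 3 = algebraMap K F (d i : K))
    (hgen : ∀ L : Subfield F, (∀ k : K, algebraMap K F k ∈ L) → (∀ i, x i ∈ L) → L = ⊤)
    (hdeg : finrank K F = 3 ^ n)
    (hf1 : Finite (ED (algebraMap K F (D : K))).toAffine.Point)
    (hs1 : ∀ (k : ℕ) (y : Sha (ED (algebraMap K F (D : K)))), 3 ^ k • y = 0 → 3 ^ n • y = 0)
    {c : ℕ} (hc : c ≤ 2) {a : Fin (2 * c + 3) → 𝓞 K} (ha : Belongs d D a) :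
    Decomp (fun i => algebraMap (𝓞 K) (𝓞 F) (a i)) (algebraMap (𝓞 K) (𝓞 F) (3 * D * ∏ i, d i)) ∧
      ∀ T : Finset (Fin (2 * c + 3)),
        BZ (ED (((∏ i, algebraMap (𝓞 K) (𝓞 F) (a i)) * ∏ i ∈ T, algebraMap (𝓞 K) (𝓞 F) (a i) :
          𝓞 F) : F)) := by
  have hD0 : D ≠ 0 := by
    rintro rfl
    exact not_squarefree_zero hD.2.1
  have hd0 := fun i => d_ne hd i
  have hP0 : ∏ i, d i ≠ 0 := Finset.prod_ne_zero_iff.2 fun i _ => hd0 i
  have hinj : ∀ y : 𝓞 K, y ≠ 0 → algebraMap (𝓞 K) (𝓞 F) y ≠ 0 := fun y hy h =>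
    hy ((FaithfulSMul.algebraMap_eq_zero_iff (𝓞 K) (𝓞 F)).1 h)
  have hcoe : ∀ y : 𝓞 K, ((algebraMap (𝓞 K) (𝓞 F) y : 𝓞 F) : F) = algebraMap K F (y : K) :=
    fun y => (IsScalarTower.algebraMap_apply (𝓞 K) (𝓞 F) F y).symm.trans
      (IsScalarTower.algebraMap_apply (𝓞 K) K F y)
  have hint : ∀ i, IsIntegral ℤ (x i) := by
    intro i
    refine IsIntegral.of_pow (n := 3) (by norm_num) ?_
    rw [hx i]
    exact (d i).2.map ((algebraMap K F).toIntAlgHom)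
  obtain ⟨X, hX⟩ : ∃ X : Fin n → 𝓞 F, ∀ i, (X i : F) = x i := ⟨fun i => ⟨x i, hint i⟩, fun i => rfl⟩
  have hX3 : ∀ i, X i ^ 3 = algebraMap (𝓞 K) (𝓞 F) (d i) := by
    intro i
    apply RingOfIntegers.ext
    rw [hcoe, ← hx i, ← hX i]
    push_cast
    rfl
  obtain ⟨μ, hμ⟩ : ∃ μ : (Fin n → ZMod 3) → 𝓞 F, ∀ t, μ t = ∏ i, X i ^ (t i).val :=
    ⟨_, fun t => rfl⟩
  have hμ3 : ∀ t, algebraMap (𝓞 K) (𝓞 F) (mt d t) = μ t ^ 3 := by
    intro t
    rw [hμ]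
    unfold Pool.Agent.U854.TW.mt
    rw [map_prod, ← Finset.prod_pow]
    refine Finset.prod_congr rfl fun i _ => ?_
    rw [map_pow, ← hX3, ← pow_mul, ← pow_mul, mul_comm]
  have hm0 : ∀ t, mt d t ≠ 0 := fun t =>
    Finset.prod_ne_zero_iff.2 fun i _ => pow_ne_zero _ (d_ne hd i)
  have hμ0 : ∀ t, μ t ≠ 0 := by
    intro t h
    apply hinj _ (hm0 t)
    rw [hμ3, h]
    ring
  have hsm : ∀ z, Sm d D z → ∀ v : HeightOneSpectrum (𝓞 F),
      algebraMap (𝓞 K) (𝓞 F) (3 * D * ∏ i, d i) ∉ v.asIdeal →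
      algebraMap (𝓞 K) (𝓞 F) z ∉ v.asIdeal := fun z hz v hv => sm_not _ v.isPrime hz hv
  have hf2 := (perN K hd hD htri x hx hgen hdeg).2
  have hc2 : ((D ^ 2 : 𝓞 K) : K) = (D : K) ^ 2 := by push_cast; rfl
  have hs2 := shaN K hd hD htri x hx hgen
  refine ⟨decomp_of hc (fun v hv h => hv ?_) (fun v hv i => hsm _ (sm_coef ha i) v hv), fun T => ?_⟩
  · rw [mul_assoc, map_mul, map_ofNat]
    exact Ideal.mul_mem_right _ _ h
  · obtain ⟨t, k, z, z', hk, hz, hz', hrel⟩ := star ha T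
    have hDt : Pool.Agent.N883.DQ.Dt (fun i => algebraMap (𝓞 K) (𝓞 F) (a i)) T =
      algebraMap (𝓞 K) (𝓞 F) (Pool.Agent.N883.DQ.Dt a T) :=
      Pool.Agent.N883.DQ.Dt_map (algebraMap (𝓞 K) (𝓞 F)) a T
    have hr := congrArg (algebraMap (𝓞 K) (𝓞 F)) hrel
    rw [map_mul, map_pow, map_mul, map_pow, map_mul, map_pow, hμ3, ← hDt] at hr
    have hz0 := hinj _ (sm_ne hD0 hd0 hz)
    have hz'0 := hinj _ (sm_ne hD0 hd0 hz')
    rcases hk with rfl | rfl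
    · refine bz_rel (δ := algebraMap (𝓞 K) (𝓞 F) D) (z := μ t * algebraMap (𝓞 K) (𝓞 F) z)
        (z' := algebraMap (𝓞 K) (𝓞 F) z') (hinj _ hD0) (mul_ne_zero (hμ0 t) hz0) hz'0 ?_
        (m := n) ?_ ?_
      · refine Eq.trans hr ?_
        ring
      · rw [hcoe]
        exact hf1
      · rw [hcoe]
        exact hs1
    · refine bz_rel (δ := algebraMap (𝓞 K) (𝓞 F) (D ^ 2)) (z := μ t ^ 2 * algebraMap (𝓞 K) (𝓞 F) z)
        (z' := algebraMap (𝓞 K) (𝓞 F) z') (hinj _ (pow_ne_zero 2 hD0))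
        (mul_ne_zero (pow_ne_zero 2 (hμ0 t)) hz0) hz'0 ?_ (m := n) ?_ ?_
      · refine Eq.trans hr ?_
        rw [map_pow]
        ring
      · rw [hcoe, hc2, map_pow]
        exact hf2
      · rw [hcoe, hc2, map_pow]
        exact hs2

end Pool.Agent.U374.Cub
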