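import Pool.Agent.U374.Cub.Neg

/-!
# One twist and its inverse over the field of the third roots of unity
-/

set_option autoImplicit false
set_option linter.unusedSectionVars false
set_option linter.unusedVariables false
set_option linter.style.haveILetI false

open scoped Classical

namespace Pool.Agent.U374.Cub

open NumberField WeierstrassCurve IsDedekindDomain Module
open Pool.Agent.Y692.QS (Ei w nr toC)
open Pool.Agent.Y703.CT (Dt pD Ker ClsE)
open Pool.Agent.TH841.NF.D (Sha)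
open Pool.Agent.Y696.CTK (ED ED_Δ Tri Parts parts ClsK)
open Pool.Agent.Y699.E (prm prm_ne_zero)
open Pool.Agent.R432.V (io ef)
open Pool.Agent.U854.TW (Family mt mt_three mt_nine d_ne data_of eulG perF indep)
open Pool.Agent.R419.CE (kk pD_sq nine_neg)

/-- the function over `K` from the data of one twist -/
theorem one_K {K : Type} [Field K] [NumberField K] (j : Ei ≃+* 𝓞 K) {z : Ei} (hz : z ≠ 0)
    (hdat : ∃ (J : Type) (_ : Fintype J) (_ : Nonempty J)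
      (π : J → Ei) (e : J → ZMod 3) (x : Ei), Dt π e ∧ Ker π e ∧
        ¬ (9 : ℤ) ∣ nr (pD π e) - 1 ∧ x ≠ 0 ∧ z = x ^ 3 * pD π e) :
    ∃ L : ℂ → ℂ, Differentiable ℂ L ∧ L 1 ≠ 0 ∧ ∀ s : ℂ, 3 / 2 < s.re →
      HasProd (fun v : {v : HeightOneSpectrum (𝓞 K) | 3 * j z ∉ v.asIdeal} => ef (j z) s v.1)
        (L s) := by
  obtain ⟨J, i1, i2, π, e, x, d1, d2, d3, d4, d5⟩ := hdat
  obtain ⟨L, a1, a2, a3⟩ := eulG (K := K) j hz (I := Fin 0) (d := Fin.elim0) (fun i => i.elim0)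
    (fun t => ⟨J, i1, i2, π, e, x, d1, d2, d3, d4, by
      rw [Finset.univ_eq_empty, Finset.prod_empty, mul_one]
      exact d5⟩) (F := K) Fin.elim0 (fun i => i.elim0)
    (fun L h1 _ => by
      rw [eq_top_iff]
      intro k _
      exact h1 k)
    (by rw [Fintype.card_fin, pow_zero, Module.finrank_self])
  have e0 : io K j (3 * z * ∏ i : Fin 0, (Fin.elim0 i : Ei)) = 3 * j z := by
    rw [Finset.univ_eq_empty, Finset.prod_empty, mul_one, Pool.Agent.R432.V.io_apply, map_mul j,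
      map_ofNat]
    rfl
  have e1 : io K j z = j z := by
    rw [Pool.Agent.R432.V.io_apply]
    rfl
  rw [e0, e1] at a3
  exact ⟨L, a1, a2, a3⟩

/-- **One twist and its inverse over `K`.** -/
theorem perK (K : Type) [Field K] [NumberField K] [IsCyclotomicExtension {3} ℚ K] {n : ℕ}
    {d : Fin n → 𝓞 K} (hd : Family d) {D : 𝓞 K} (hD : ClsK D) {t : Fin n → ZMod 3}
    (hT : Tri (D * mt d t)) :
    (∃ L : ℂ → ℂ, Differentiable ℂ L ∧ L 1 ≠ 0 ∧ ∀ s : ℂ, 3 / 2 < s.re →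
      HasProd (fun v : {v : HeightOneSpectrum (𝓞 K) | 3 * D * ∏ i, d i ∉ v.asIdeal} =>
        ef (D * mt d t * (∏ i, d i) ^ 3) s v.1) (L s)) ∧
    (∃ L : ℂ → ℂ, Differentiable ℂ L ∧ L 1 ≠ 0 ∧ ∀ s : ℂ, 3 / 2 < s.re →
      HasProd (fun v : {v : HeightOneSpectrum (𝓞 K) | 3 * D * ∏ i, d i ∉ v.asIdeal} =>
        ef ((D * mt d t) ^ 2 * (∏ i, d i) ^ 3) s v.1) (L s)) ∧
    Finite (ED ((D * mt d t : 𝓞 K) : K)).toAffine.Point ∧
    Finite (ED (((D * mt d t : 𝓞 K) : K) ^ 2)).toAffine.Point := by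
  obtain ⟨⟨j, hj⟩, -⟩ := Pool.Agent.Y455.CTK.jex K
  obtain ⟨z, rfl⟩ := j.surjective D
  have hz : ClsE z := (Pool.Agent.Y696.XK.cls_iff j hj z).1 hD
  have hz0 : z ≠ 0 := prm_ne_zero hz.1
  choose δ hδ using fun i => j.surjective (d i)
  have hδ0 : ∀ i, δ i ≠ 0 := fun i h => d_ne hd i (by rw [← hδ, h, map_zero])
  obtain ⟨y, hy⟩ : ∃ y, y = ∏ i, δ i ^ (t i).val := ⟨_, rfl⟩
  have hmj : mt d t = j y := by
    unfold Pool.Agent.U854.TW.mt
    rw [hy, map_prod]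
    refine Finset.prod_congr rfl fun i _ => ?_
    rw [map_pow, hδ]
  have hm3 : prm y := by
    have h3 := mt_three hd t
    rw [hmj] at h3
    have e1 : j y - 1 = j (y - 1) := by
      rw [map_sub, map_one]
    rw [e1, ← map_ofNat j 3, map_dvd_iff j] at h3
    exact h3
  have hm9 : (9 : ℤ) ∣ nr y - 1 := by
    have h3 := mt_nine hd t
    rw [hmj, hj] at h3
    exact h3
  have hmT : Tri (j (z * y)) := by
    rw [map_mul, ← hmj]
    exact hT
  obtain ⟨P, hP⟩ : ∃ P, P = ∏ i, δ i := ⟨_, rfl⟩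
  have hP0 : P ≠ 0 := by
    rw [hP]
    exact Finset.prod_ne_zero_iff.2 fun i _ => hδ0 i
  have hy0 : y ≠ 0 := prm_ne_zero hm3
  have hjP : ∏ i, d i = j P := by
    rw [hP, map_prod]
    exact Finset.prod_congr rfl fun i _ => (hδ i).symm
  obtain ⟨J, i1, i2, π, e, x, d1, d2, d3, d4, d5⟩ := data_of j hz hm3 hm9 hmT
  have hyv : ∀ v : HeightOneSpectrum (𝓞 K), j y ∈ v.asIdeal → j P ∈ v.asIdeal := by
    intro v h
    have hv := v.isPrime
    rw [hy, map_prod] at h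
    obtain ⟨i, -, hi⟩ := (Ideal.IsPrime.prod_mem_iff).1 h
    rw [map_pow] at hi
    have hi' := hv.mem_of_pow_mem _ hi
    rw [hP, map_prod]
    exact Ideal.mem_of_dvd _ (Finset.dvd_prod_of_mem _ (Finset.mem_univ i)) hi'
  have hset : ∀ (k : ℕ), k ≠ 0 → {v : HeightOneSpectrum (𝓞 K) |
      3 * j ((z * y) ^ k * P ^ 3) ∉ v.asIdeal} =
      {v : HeightOneSpectrum (𝓞 K) | 3 * j z * ∏ i, d i ∉ v.asIdeal} := by
    intro k hk
    ext v
    show (_ ∉ v.asIdeal) ↔ (_ ∉ v.asIdeal)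
    refine not_congr ?_
    have hv := v.isPrime
    have h1 := hyv v
    rw [hjP]
    simp only [map_mul, map_pow]
    rw [hv.mul_mem_iff_mem_or_mem, hv.mul_mem_iff_mem_or_mem, hv.mul_mem_iff_mem_or_mem,
      hv.mul_mem_iff_mem_or_mem, hv.pow_mem_iff_mem 3 (by norm_num), hv.pow_mem_iff_mem k
        (Nat.pos_of_ne_zero hk), hv.mul_mem_iff_mem_or_mem]
    tauto
  have hfin1 : Finite (ED ((j z * mt d t : 𝓞 K) : K)).toAffine.Point := hT.1
  have hfin2 := fin_sq j hz hm3 hm9 hmT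
  rw [map_mul, ← hmj] at hfin2
  refine ⟨?_, ?_, hfin1, hfin2⟩
  · obtain ⟨L, a1, a2, a3⟩ := one_K j (z := (z * y) ^ 1 * P ^ 3)
      (mul_ne_zero (pow_ne_zero 1 (mul_ne_zero hz0 hy0)) (pow_ne_zero 3 hP0))
      ⟨J, i1, i2, π, e, x * P, d1, d2, d3, mul_ne_zero d4 hP0, by
        rw [pow_one, d5]
        ring⟩
    rw [hset 1 one_ne_zero] at a3
    have e1 : j ((z * y) ^ 1 * P ^ 3) = j z * mt d t * (∏ i, d i) ^ 3 := by
      rw [pow_one, map_mul, map_mul, map_pow, ← hmj, hjP]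
    rw [e1] at a3
    exact ⟨L, a1, a2, a3⟩
  · obtain ⟨L, a1, a2, a3⟩ := one_K j (z := (z * y) ^ 2 * P ^ 3)
      (mul_ne_zero (pow_ne_zero 2 (mul_ne_zero hz0 hy0)) (pow_ne_zero 3 hP0))
      ⟨J, i1, i2, π, fun i => -e i, x ^ 2 * (∏ i, π i ^ kk (e i)) * P, d1.neg, d2.neg,
        nine_neg d1 d3, mul_ne_zero (mul_ne_zero (pow_ne_zero 2 d4)
          (Finset.prod_ne_zero_iff.2 fun i _ => pow_ne_zero _ (d1.pq i).prime.ne_zero)) hP0, by
        have h2 := pD_sq (π := π) (e := e)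
        rw [d5]
        calc (x ^ 3 * pD π e) ^ 2 * P ^ 3 = x ^ 6 * (pD π e) ^ 2 * P ^ 3 := by ring
          _ = x ^ 6 * (pD π (fun i => -e i) * (∏ i, π i ^ kk (e i)) ^ 3) * P ^ 3 := by rw [h2]
          _ = _ := by ring⟩
    rw [hset 2 two_ne_zero] at a3
    have e1 : j ((z * y) ^ 2 * P ^ 3) = (j z * mt d t) ^ 2 * (∏ i, d i) ^ 3 := by
      rw [map_mul, map_pow, map_pow, map_mul, ← hmj, hjP]
    rw [e1] at a3
    exact ⟨L, a1, a2, a3⟩

end Pool.Agent.U374.Cub
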