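import Pool.Agent.U374.Cub.Lf
import Pool.Agent.U374.Cub.PerK

/-!
# Diagonal cubic hypersurfaces with one coefficient `D` or `D²` and the others products of the `dᵢ`
-/

set_option autoImplicit false
set_option linter.unusedSectionVars false
set_option linter.unusedVariables false
set_option linter.style.haveILetI false

open scoped Classical

namespace Pool.Agent.U374.Cub

open NumberField WeierstrassCurve IsDedekindDomain Module
open Pool.Agent.Y696.CTK (ED ED_Δ Tri ClsK)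
open Pool.Agent.R432.V (ef)
open Pool.Agent.U854.TW (Family mt mt_three mt_nine d_ne perF)
open Pool.Agent.N883.DQ (Dt_map)

section alg
variable {R : Type} [CommRing R] {n : ℕ} {d : Fin n → R} {D : R}

/-- a product of powers of the `d i` -/
def Mon {n : ℕ} (d : Fin n → R) (x : R) : Prop := ∃ m : Fin n → ℕ, x = ∏ i, d i ^ m i

lemma mon_one : Mon d (1 : R) := ⟨0, by simp⟩

lemma mon_mul {x y : R} (hx : Mon d x) (hy : Mon d y) : Mon d (x * y) := by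
  obtain ⟨m, rfl⟩ := hx
  obtain ⟨m', rfl⟩ := hy
  refine ⟨m + m', ?_⟩
  rw [← Finset.prod_mul_distrib]
  refine Finset.prod_congr rfl fun i _ => ?_
  rw [Pi.add_apply, pow_add]

lemma mon_prod {ι : Type} (s : Finset ι) {f : ι → R} (h : ∀ i ∈ s, Mon d (f i)) :
    Mon d (∏ i ∈ s, f i) := by
  induction s using Finset.induction_on with
  | empty => rw [Finset.prod_empty]; exact mon_one
  | insert a s ha ih =>
    rw [Finset.prod_insert ha]
    exact mon_mul (h a (Finset.mem_insert_self _ _))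
      (ih fun i hi => h i (Finset.mem_insert_of_mem hi))

/-- one coefficient is `D` or `D²` times a product of powers of the `d i`, and the others are products
of powers of the `d i` -/
def Belongs {n m : ℕ} (d : Fin n → R) (D : R) (a : Fin m → R) : Prop :=
  ∃ i₀, (∃ y, Mon d y ∧ (a i₀ = D * y ∨ a i₀ = D ^ 2 * y)) ∧ ∀ i, i ≠ i₀ → Mon d (a i)

theorem dt_form {m : ℕ} {a : Fin m → R} (h : Belongs d D a) (T : Finset (Fin m)) :
    ∃ (k : ℕ) (q : Fin n → ℕ), (k = 1 ∨ k = 2 ∨ k = 4) ∧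
      Pool.Agent.N883.DQ.Dt a T = D ^ k * ∏ i, d i ^ q i := by
  obtain ⟨i₀, ⟨y, hy, h1⟩, h2⟩ := h
  obtain ⟨e, he, h1'⟩ : ∃ e : ℕ, (e = 1 ∨ e = 2) ∧ a i₀ = D ^ e * y := by
    rcases h1 with h1 | h1
    · exact ⟨1, Or.inl rfl, by rw [pow_one]; exact h1⟩
    · exact ⟨2, Or.inr rfl, h1⟩
  let y' : Fin m → R := fun i => if i = i₀ then y else a i
  have hy' : ∀ i, Mon d (y' i) := by
    intro i
    by_cases hi : i = i₀
    · simp only [y', if_pos hi]
      exact hy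
    · simp only [y', if_neg hi]
      exact h2 i hi
  have ha : ∀ i, a i = (if i = i₀ then D ^ e else 1) * y' i := by
    intro i
    by_cases hi : i = i₀
    · simp only [y', if_pos hi]
      rw [hi]
      exact h1'
    · simp only [y', if_neg hi, one_mul]
  have hp : ∀ S : Finset (Fin m), ∏ i ∈ S, a i =
      (if i₀ ∈ S then D ^ e else 1) * ∏ i ∈ S, y' i := by
    intro S
    rw [Finset.prod_congr rfl fun i _ => ha i, Finset.prod_mul_distrib]
    congr 1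
    exact Finset.prod_ite_eq' S i₀ fun _ => D ^ e
  obtain ⟨q, hq⟩ := mon_mul (mon_prod Finset.univ fun i _ => hy' i) (mon_prod T fun i _ => hy' i)
  unfold Pool.Agent.N883.DQ.Dt
  rw [hp, hp, if_pos (Finset.mem_univ _)]
  by_cases hT : i₀ ∈ T
  · rw [if_pos hT]
    refine ⟨e + e, q, ?_, ?_⟩
    · rcases he with rfl | rfl
      · exact Or.inr (Or.inl rfl)
      · exact Or.inr (Or.inr rfl)
    · rw [← hq, pow_add]
      ring
  · rw [if_neg hT]
    refine ⟨e, q, ?_, ?_⟩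
    · rcases he with rfl | rfl
      · exact Or.inl rfl
      · exact Or.inr (Or.inl rfl)
    · rw [← hq]
      ring

/-- a product of powers of `D` and the `d i` -/
def Sm {n : ℕ} (d : Fin n → R) (D : R) (z : R) : Prop :=
  ∃ (k : ℕ) (q : Fin n → ℕ), z = D ^ k * ∏ i, d i ^ q i

lemma sm_map {S : Type} [CommRing S] (f : R →+* S) {P : Ideal S} (hP : P.IsPrime) {z : R}
    (hz : Sm d D z) (h : f z ∈ P) : f D ∈ P ∨ ∃ i, f (d i) ∈ P := by
  obtain ⟨k, q, rfl⟩ := hz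
  rw [map_mul, map_pow, map_prod] at h
  rcases hP.mem_or_mem h with h | h
  · exact Or.inl (hP.mem_of_pow_mem _ h)
  · obtain ⟨i, -, hi⟩ := (Ideal.IsPrime.prod_mem_iff).1 h
    rw [map_pow] at hi
    exact Or.inr ⟨i, hP.mem_of_pow_mem _ hi⟩

lemma sm_not {S : Type} [CommRing S] (f : R →+* S) {P : Ideal S} (hP : P.IsPrime) {z : R}
    (hz : Sm d D z) (h : f (3 * D * ∏ i, d i) ∉ P) : f z ∉ P := by
  intro h1
  apply h
  rw [map_mul, map_mul, map_prod]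
  rcases sm_map f hP hz h1 with h2 | ⟨i, h2⟩
  · exact Ideal.mul_mem_right _ _ (Ideal.mul_mem_left _ _ h2)
  · exact Ideal.mul_mem_left _ _ (Ideal.mem_of_dvd _
      (Finset.dvd_prod_of_mem (fun i => f (d i)) (Finset.mem_univ i)) h2)

lemma sm_of_mon {x : R} (h : Mon d x) : Sm d D x := by
  obtain ⟨m, rfl⟩ := h
  exact ⟨0, m, by rw [pow_zero, one_mul]⟩

lemma sm_coef {m : ℕ} {a : Fin m → R} (h : Belongs d D a) (i : Fin m) : Sm d D (a i) := by
  obtain ⟨i₀, ⟨y, ⟨q, rfl⟩, h1⟩, h2⟩ := h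
  by_cases hi : i = i₀
  · rw [hi]
    rcases h1 with h1 | h1
    · exact ⟨1, q, by rw [h1, pow_one]⟩
    · exact ⟨2, q, h1⟩
  · exact sm_of_mon (h2 i hi)

/-- the exponents -/
lemma q_one (m : ℕ) : m = ((m : ZMod 3)).val + m / 3 * 3 := by
  rw [ZMod.val_natCast]
  omega

lemma q_two (m : ℕ) : ∃ q : ℕ, m + 6 = (-(m : ZMod 3)).val * 2 + q * 3 := by
  have h1 : m = 3 * (m / 3) + m % 3 := (Nat.div_add_mod m 3).symm
  have h2 : (m : ZMod 3) = ((m % 3 : ℕ) : ZMod 3) := by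
    conv_lhs => rw [h1]
    push_cast
    have : (3 : ZMod 3) = 0 := by decide
    rw [this]
    ring
  have h3 : m % 3 < 3 := Nat.mod_lt _ (by norm_num)
  rw [h2]
  have key : ∀ r : ℕ, r < 3 → ∃ q : ℕ, r + 6 = (-((r : ℕ) : ZMod 3)).val * 2 + q * 3 := by
    intro r hr
    interval_cases r
    · exact ⟨2, by decide⟩
    · exact ⟨1, by decide⟩
    · exact ⟨2, by decide⟩
  obtain ⟨q, hq⟩ := key _ h3
  exact ⟨q + m / 3, by omega⟩

end alg

section star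
variable {K : Type} [Field K] [NumberField K] {n : ℕ} {d : Fin n → 𝓞 K} {D : 𝓞 K}

/-- **The classes of the `δ_T`.** -/
theorem star {m : ℕ} {a : Fin m → 𝓞 K} (h : Belongs d D a) (T : Finset (Fin m)) :
    ∃ (t : Fin n → ZMod 3) (k : ℕ) (z z' : 𝓞 K), (k = 1 ∨ k = 2) ∧ Sm d D z ∧ Sm d D z' ∧
      Pool.Agent.N883.DQ.Dt a T * z' ^ 3 = (D * mt d t) ^ k * z ^ 3 := by
  obtain ⟨k, q, hk, hq⟩ := dt_form h T
  have h1 : ∏ i, d i ^ q i = mt d (fun i => ((q i : ℕ) : ZMod 3)) * (∏ i, d i ^ (q i / 3)) ^ 3 := by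
    unfold Pool.Agent.U854.TW.mt
    rw [← Finset.prod_pow, ← Finset.prod_mul_distrib]
    refine Finset.prod_congr rfl fun i _ => ?_
    rw [← pow_mul, ← pow_add, ← q_one]
  rcases hk with rfl | rfl | rfl
  · refine ⟨fun i => ((q i : ℕ) : ZMod 3), 1, ∏ i, d i ^ (q i / 3), 1, Or.inl rfl, sm_of_mon ⟨_, rfl⟩,
      sm_of_mon mon_one, ?_⟩
    rw [hq, h1]
    ring
  · choose u hu using fun i => q_two (q i)
    refine ⟨fun i => -((q i : ℕ) : ZMod 3), 2, ∏ i, d i ^ u i, ∏ i, d i ^ 2, Or.inr rfl,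
      sm_of_mon ⟨_, rfl⟩, sm_of_mon ⟨fun _ => 2, rfl⟩, ?_⟩
    rw [hq]
    have h2 : (∏ i, d i ^ q i) * (∏ i, d i ^ 2) ^ 3 =
        (mt d fun i => -((q i : ℕ) : ZMod 3)) ^ 2 * (∏ i, d i ^ u i) ^ 3 := by
      unfold Pool.Agent.U854.TW.mt
      rw [← Finset.prod_pow, ← Finset.prod_pow, ← Finset.prod_pow, ← Finset.prod_mul_distrib,
        ← Finset.prod_mul_distrib]
      refine Finset.prod_congr rfl fun i _ => ?_
      rw [← pow_mul, ← pow_mul, ← pow_mul, ← pow_add, ← pow_add, ← hu i]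
    linear_combination D ^ 2 * h2
  · refine ⟨fun i => ((q i : ℕ) : ZMod 3), 1, D * ∏ i, d i ^ (q i / 3), 1, Or.inl rfl,
      ⟨1, _, by rw [pow_one]⟩,
      sm_of_mon mon_one, ?_⟩
    rw [hq, h1]
    ring

/-- Both sides are zero for the hypersurface: the `L`-function of `H^n` is not zero at the centre, and
the curves whose product is isogenous to the intermediate Jacobian have finitely many points. -/
def RZ {L : Type} [Field L] [NumberField L] {c : ℕ} (a : Fin (2 * c + 3) → 𝓞 L) (B : 𝓞 L) : Prop :=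
  (∃ Lf : ℂ → ℂ, IsLB a B Lf ∧ Lf (c + 1) ≠ 0) ∧
  ∀ T : Finset (Fin (2 * c + 3)), T.card = c →
    Finite (ED ((Pool.Agent.N883.DQ.Dt a T : 𝓞 L) : L)).toAffine.Point

/-- the general statement over one field -/
theorem rz_of {L : Type} [Field L] [NumberField L] {c : ℕ} (hc : c ≤ 2)
    {a : Fin (2 * c + 3) → 𝓞 L} {B : 𝓞 L}
    (h3 : ∀ v : HeightOneSpectrum (𝓞 L), B ∉ v.asIdeal → (3 : 𝓞 L) ∉ v.asIdeal)
    (ha : ∀ v : HeightOneSpectrum (𝓞 L), B ∉ v.asIdeal → ∀ i, a i ∉ v.asIdeal)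
    (h : ∀ T : Finset (Fin (2 * c + 3)), ∃ δ z z' : 𝓞 L, δ ≠ 0 ∧ z ≠ 0 ∧ z' ≠ 0 ∧
      (∀ v : HeightOneSpectrum (𝓞 L), B ∉ v.asIdeal → z ∉ v.asIdeal ∧ z' ∉ v.asIdeal) ∧
      Pool.Agent.N883.DQ.Dt a T * z' ^ 3 = δ * z ^ 3 ∧
      (∃ Lf : ℂ → ℂ, Differentiable ℂ Lf ∧ Lf 1 ≠ 0 ∧ ∀ s : ℂ, 3 / 2 < s.re →
        HasProd (fun v : {v : HeightOneSpectrum (𝓞 L) | B ∉ v.asIdeal} => ef δ s v.1) (Lf s)) ∧
      Finite (ED (δ : L)).toAffine.Point) : RZ a B := by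
  choose δ z z' hδ0 hz hz' hv hrel hLf hfin using h
  choose Lf h1 h2 h4 using hLf
  refine ⟨⟨fun s => ∏ T ∈ SS c, Lf T (s - c), isLB_of hc h3 ha (δ := δ)
    (fun T _ v hvv => ⟨z T, z' T, (hv T v hvv).1, (hv T v hvv).2, hrel T⟩) (fun T _ => h1 T)
    (fun T _ => h4 T), ?_⟩, fun T _ => ?_⟩
  · beta_reduce
    refine Finset.prod_ne_zero_iff.2 fun T _ => ?_
    rw [add_sub_cancel_left]
    exact h2 T
  · have c0 : ∀ x : 𝓞 L, x ≠ 0 → (x : L) ≠ 0 := fun x hx hh => hx (RingOfIntegers.ext hh)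
    refine fin_tw (u := (z T : L) / (z' T : L)) (div_ne_zero (c0 _ (hz T)) (c0 _ (hz' T)))
      (c0 _ (hδ0 T)) ?_ (hfin T)
    have h5 := congrArg (fun x : 𝓞 L => (x : L)) (hrel T)
    push_cast at h5
    rw [div_pow, ← mul_div_assoc, eq_div_iff (pow_ne_zero 3 (c0 _ (hz' T)))]
    exact h5

lemma sm_ne {z : 𝓞 K} (hD : D ≠ 0) (hd : ∀ i, d i ≠ 0) (hz : Sm d D z) : z ≠ 0 := by
  obtain ⟨k, q, rfl⟩ := hz
  exact mul_ne_zero (pow_ne_zero _ hD) (Finset.prod_ne_zero_iff.2 fun i _ => pow_ne_zero _ (hd i))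

end star

/-- **The hypersurfaces over `K`.** -/
theorem rz_K (K : Type) [Field K] [NumberField K] [IsCyclotomicExtension {3} ℚ K] {n : ℕ}
    {d : Fin n → 𝓞 K} (hd : Family d) {D : 𝓞 K} (hD : ClsK D) (htri : ∀ t, Tri (D * mt d t))
    {c : ℕ} (hc : c ≤ 2) {a : Fin (2 * c + 3) → 𝓞 K} (ha : Belongs d D a) :
    RZ a (3 * D * ∏ i, d i) := by
  have hD0 : D ≠ 0 := by
    rintro rfl
    exact not_squarefree_zero hD.2.1
  have hd0 := fun i => d_ne hd i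
  have hm0 : ∀ t, mt d t ≠ 0 := fun t =>
    Finset.prod_ne_zero_iff.2 fun i _ => pow_ne_zero _ (d_ne hd i)
  have hP0 : ∏ i, d i ≠ 0 := Finset.prod_ne_zero_iff.2 fun i _ => hd0 i
  have hPs : Sm d D (∏ i, d i) := sm_of_mon ⟨fun _ => 1, by simp⟩
  have hsm : ∀ z, Sm d D z → ∀ v : HeightOneSpectrum (𝓞 K), 3 * D * ∏ i, d i ∉ v.asIdeal →
      z ∉ v.asIdeal := fun z hz v hv => sm_not (RingHom.id (𝓞 K)) v.isPrime hz hv
  refine rz_of hc (fun v hv h => hv ?_) (fun v hv i => hsm _ (sm_coef ha i) v hv) fun T => ?_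
  · rw [mul_assoc]
    exact Ideal.mul_mem_right _ _ h
  · obtain ⟨t, k, z, z', hk, hz, hz', hrel⟩ := star ha T
    obtain ⟨b1, b2, b3, b4⟩ := perK K hd hD (htri t)
    have hz's : Sm d D (z' * ∏ i, d i) := by
      obtain ⟨k', q', rfl⟩ := hz'
      refine ⟨k', fun i => q' i + 1, ?_⟩
      rw [mul_assoc, ← Finset.prod_mul_distrib]
      simp only [pow_succ]
    refine ⟨(D * mt d t) ^ k * (∏ i, d i) ^ 3, z, z' * ∏ i, d i,
      mul_ne_zero (pow_ne_zero _ (mul_ne_zero hD0 (hm0 t))) (pow_ne_zero 3 hP0),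
      sm_ne hD0 hd0 hz, sm_ne hD0 hd0 hz's, fun v hv => ⟨hsm _ hz v hv, hsm _ hz's v hv⟩,
      by linear_combination (∏ i, d i) ^ 3 * hrel, ?_, ?_⟩
    · rcases hk with rfl | rfl
      · rw [pow_one]
        exact b1
      · exact b2
    · have c0 : ∀ x : 𝓞 K, x ≠ 0 → (x : K) ≠ 0 := fun x hx hh => hx (RingOfIntegers.ext hh)
      have hb : Finite (ED (((D * mt d t : 𝓞 K) : K) ^ k)).toAffine.Point := by
        rcases hk with rfl | rfl
        · rw [pow_one]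
          exact b3
        · exact b4
      refine fin_tw (u := ((∏ i, d i : 𝓞 K) : K)) (c0 _ hP0)
        (pow_ne_zero k (c0 _ (mul_ne_zero hD0 (hm0 t)))) ?_ hb
      push_cast
      ring

/-- **The hypersurfaces over the fixed fields.** -/
theorem rz_F (K : Type) [Field K] [NumberField K] [IsCyclotomicExtension {3} ℚ K] {n : ℕ}
    {d : Fin n → 𝓞 K} (hd : Family d) {D : 𝓞 K} (hD : ClsK D) (htri : ∀ t, Tri (D * mt d t))
    {F : Type} [Field F] [NumberField F] [Algebra K F] (x : Fin n → F)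
    (hx : ∀ i, x i ^ 3 = algebraMap K F (d i : K))
    (hgen : ∀ L : Subfield F, (∀ k : K, algebraMap K F k ∈ L) → (∀ i, x i ∈ L) → L = ⊤)
    (hdeg : finrank K F = 3 ^ n)
    (hF : (∃ L : ℂ → ℂ, Differentiable ℂ L ∧ L 1 ≠ 0 ∧ ∀ s : ℂ, 3 / 2 < s.re →
            HasProd (fun v : {v : HeightOneSpectrum (𝓞 F) |
              algebraMap (𝓞 K) (𝓞 F) (3 * D * ∏ i, d i) ∉ v.asIdeal} =>
                ef (algebraMap (𝓞 K) (𝓞 F) D) s v.1) (L s)) ∧
          Finite (ED (algebraMap K F (D : K))).toAffine.Point)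
    {c : ℕ} (hc : c ≤ 2) {a : Fin (2 * c + 3) → 𝓞 K} (ha : Belongs d D a) :
    RZ (fun i => algebraMap (𝓞 K) (𝓞 F) (a i)) (algebraMap (𝓞 K) (𝓞 F) (3 * D * ∏ i, d i)) := by
  have hD0 : D ≠ 0 := by
    rintro rfl
    exact not_squarefree_zero hD.2.1
  have hd0 := fun i => d_ne hd i
  have hP0 : ∏ i, d i ≠ 0 := Finset.prod_ne_zero_iff.2 fun i _ => hd0 i
  have hinj : ∀ y : 𝓞 K, y ≠ 0 → algebraMap (𝓞 K) (𝓞 F) y ≠ 0 := fun y hy h =>
    hy ((FaithfulSMul.algebraMap_eq_zero_iff (𝓞 K) (𝓞 F)).1 h)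
  have hcoe : ∀ y : 𝓞 K, ((algebraMap (𝓞 K) (𝓞 F) y : 𝓞 F) : F) = algebraMap K F (y : K) :=
    fun y => (IsScalarTower.algebraMap_apply (𝓞 K) (𝓞 F) F y).symm.trans
      (IsScalarTower.algebraMap_apply (𝓞 K) K F y)
  -- the cube roots as integers
  have hint : ∀ i, IsIntegral ℤ (x i) := by
    intro i
    refine IsIntegral.of_pow (n := 3) (by norm_num) ?_
    rw [hx i]
    exact (d i).2.map ((algebraMap K F).toIntAlgHom)
  obtain ⟨X, hX⟩ : ∃ X : Fin n → 𝓞 F, ∀ i, (X i : F) = x i := ⟨fun i => ⟨x i, hint i⟩, fun i => rfl⟩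
  have hX3 : ∀ i, X i ^ 3 = algebraMap (𝓞 K) (𝓞 F) (d i) := by
    intro i
    apply RingOfIntegers.ext
    rw [hcoe, ← hx i, ← hX i]
    push_cast
    rfl
  obtain ⟨μ, hμ⟩ : ∃ μ : (Fin n → ZMod 3) → 𝓞 F, ∀ t, μ t = ∏ i, X i ^ (t i).val :=
    ⟨_, fun t => rfl⟩
  have hμ3 : ∀ t, algebraMap (𝓞 K) (𝓞 F) (mt d t) = μ t ^ 3 := by
    intro t
    rw [hμ]
    unfold Pool.Agent.U854.TW.mt
    rw [map_prod, ← Finset.prod_pow]
    refine Finset.prod_congr rfl fun i _ => ?_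
    rw [map_pow, ← hX3, ← pow_mul, ← pow_mul, mul_comm]
  have hm0 : ∀ t, mt d t ≠ 0 := fun t =>
    Finset.prod_ne_zero_iff.2 fun i _ => pow_ne_zero _ (d_ne hd i)
  have hμ0 : ∀ t, μ t ≠ 0 := by
    intro t h
    apply hinj _ (hm0 t)
    rw [hμ3, h]
    ring
  have hsm : ∀ z, Sm d D z → ∀ v : HeightOneSpectrum (𝓞 F),
      algebraMap (𝓞 K) (𝓞 F) (3 * D * ∏ i, d i) ∉ v.asIdeal →
      algebraMap (𝓞 K) (𝓞 F) z ∉ v.asIdeal := fun z hz v hv => sm_not _ v.isPrime hz hv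
  have hmts : ∀ t, Sm d D (mt d t) := fun t => sm_of_mon ⟨fun i => (t i).val, rfl⟩
  have hμv : ∀ t, ∀ v : HeightOneSpectrum (𝓞 F),
      algebraMap (𝓞 K) (𝓞 F) (3 * D * ∏ i, d i) ∉ v.asIdeal → μ t ∉ v.asIdeal := by
    intro t v hv h
    apply hsm _ (hmts t) v hv
    rw [hμ3]
    exact Ideal.pow_mem_of_mem _ h 3 (by norm_num)
  have hPs : Sm d D (∏ i, d i) := sm_of_mon ⟨fun _ => 1, by simp⟩
  obtain ⟨hL1, hf1⟩ := hF
  obtain ⟨hL2, hf2⟩ := perN K hd hD htri x hx hgen hdeg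
  refine rz_of hc (fun v hv h => hv ?_) (fun v hv i => hsm _ (sm_coef ha i) v hv) fun T => ?_
  · rw [mul_assoc, map_mul, map_ofNat]
    exact Ideal.mul_mem_right _ _ h
  · obtain ⟨t, k, z, z', hk, hz, hz', hrel⟩ := star ha T
    have hDt : Pool.Agent.N883.DQ.Dt (fun i => algebraMap (𝓞 K) (𝓞 F) (a i)) T =
      algebraMap (𝓞 K) (𝓞 F) (Pool.Agent.N883.DQ.Dt a T) := Dt_map (algebraMap (𝓞 K) (𝓞 F)) a T
    have hr := congrArg (algebraMap (𝓞 K) (𝓞 F)) hrel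
    rw [map_mul, map_pow, map_mul, map_pow, map_mul, map_pow, hμ3] at hr
    have hz0 := hinj _ (sm_ne hD0 hd0 hz)
    have hz'0 := hinj _ (sm_ne hD0 hd0 hz')
    rcases hk with rfl | rfl
    · refine ⟨algebraMap (𝓞 K) (𝓞 F) D, μ t * algebraMap (𝓞 K) (𝓞 F) z,
        algebraMap (𝓞 K) (𝓞 F) z', hinj _ hD0, mul_ne_zero (hμ0 t) hz0, hz'0,
        fun v hv => ⟨fun h => ?_, hsm _ hz' v hv⟩, ?_, hL1, ?_⟩
      · rcases v.isPrime.mem_or_mem h with h | h
        · exact hμv t v hv h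
        · exact hsm _ hz v hv h
      · rw [hDt]
        linear_combination hr
      · rw [hcoe]
        exact hf1
    · refine ⟨algebraMap (𝓞 K) (𝓞 F) (D ^ 2 * (∏ i, d i) ^ 3),
        μ t ^ 2 * algebraMap (𝓞 K) (𝓞 F) z,
        algebraMap (𝓞 K) (𝓞 F) z' * algebraMap (𝓞 K) (𝓞 F) (∏ i, d i),
        hinj _ (mul_ne_zero (pow_ne_zero 2 hD0) (pow_ne_zero 3 hP0)),
        mul_ne_zero (pow_ne_zero 2 (hμ0 t)) hz0, mul_ne_zero hz'0 (hinj _ hP0),
        fun v hv => ⟨fun h => ?_, fun h => ?_⟩, ?_, hL2, ?_⟩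
      · rcases v.isPrime.mem_or_mem h with h | h
        · exact hμv t v hv (v.isPrime.mem_of_pow_mem 2 h)
        · exact hsm _ hz v hv h
      · rcases v.isPrime.mem_or_mem h with h | h
        · exact hsm _ hz' v hv h
        · exact hsm _ hPs v hv h
      · rw [hDt, map_mul (algebraMap (𝓞 K) (𝓞 F)), map_pow, map_pow]
        linear_combination (algebraMap (𝓞 K) (𝓞 F) (∏ i, d i)) ^ 3 * hr
      · rw [hcoe]
        have hPF : algebraMap K F ((∏ i, d i : 𝓞 K) : K) ≠ 0 := by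
          rw [← hcoe]
          exact fun hh => hinj _ hP0 (RingOfIntegers.ext hh)
        have hDF : algebraMap K F (D : K) ≠ 0 := by
          rw [← hcoe]
          exact fun hh => hinj _ hD0 (RingOfIntegers.ext hh)
        refine fin_tw (u := algebraMap K F ((∏ i, d i : 𝓞 K) : K)) hPF (pow_ne_zero 2 hDF) ?_ hf2
        push_cast [map_mul, map_pow]
        ring

end Pool.Agent.U374.Cub
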