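import Pool.Agent.U854.TW.C
import Pool.Agent.R419.CE.Tw
import Pool.Agent.Y700.VC

/-!
# The twist by the inverse over the fixed fields: `y² + D² y = x³` over `F = K(∛d₁, …, ∛dₙ)`
-/

set_option autoImplicit false
set_option linter.unusedSectionVars false
set_option linter.unusedVariables false
set_option linter.style.haveILetI false

open scoped Classical

namespace Pool.Agent.U374.Cub

open NumberField WeierstrassCurve IsDedekindDomain Module
open Pool.Agent.Y692.QS (Ei w nr toC)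
open Pool.Agent.Y703.CT (Dt pD Ker ClsE)
open Pool.Agent.TH841.NF.D (Sha)
open Pool.Agent.Y696.CTK (ED ED_Δ Tri Parts parts ClsK)
open Pool.Agent.Y699.E (prm prm_ne_zero)
open Pool.Agent.R432.V (io ef)
open Pool.Agent.U854.TW (Family mt mt_three mt_nine d_ne data_of eulG perF indep)
open Pool.Agent.Y700 (VR)
open Pool.Agent.R419.CE (kk pD_sq nine_neg)

/-- the points of a twist by a cube -/
theorem fin_tw {L : Type} [Field L] [CharZero L] {d d' u : L} (hu : u ≠ 0) (hd : d ≠ 0)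
    (h : d' = d * u ^ 3) (hf : Finite (ED d).toAffine.Point) : Finite (ED d').toAffine.Point := by
  have hvr : VR (ED d') (ED d) u 0 0 0 := by
    refine ⟨hu, ?_, ?_, ?_, ?_, ?_⟩ <;> simp [ED]
    rw [h]
    ring
  have hΔ : (ED d).Δ ≠ 0 := by
    rw [ED_Δ]
    exact mul_ne_zero (by norm_num) (pow_ne_zero _ hd)
  exact Finite.of_equiv _ (hvr.equiv hΔ).toEquiv

/-- the exponents -/
def k2 (c : ZMod 3) : ℕ := if c = 1 then 0 else 1

lemma k2_eq : ∀ c : ZMod 3, 3 + c.val = (-c).val * 2 + k2 c * 3 := by decide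

lemma prod_k2 {R : Type} [CommRing R] {n : ℕ} (δ : Fin n → R) (t : Fin n → ZMod 3) :
    (∏ i, δ i) ^ 3 * ∏ i, δ i ^ (t i).val =
      (∏ i, δ i ^ (-t i).val) ^ 2 * (∏ i, δ i ^ k2 (t i)) ^ 3 := by
  rw [← Finset.prod_pow, ← Finset.prod_pow, ← Finset.prod_pow, ← Finset.prod_mul_distrib,
    ← Finset.prod_mul_distrib]
  refine Finset.prod_congr rfl fun i _ => ?_
  rw [← pow_add, ← pow_mul, ← pow_mul, ← pow_add, k2_eq]

/-- the second twist over `K` -/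
theorem fin_sq {K : Type} [Field K] [NumberField K] (j : Ei ≃+* 𝓞 K) {D m : Ei} (hD : ClsE D)
    (hm : prm m) (h9 : (9 : ℤ) ∣ nr m - 1) (hT : Tri (j (D * m))) :
    Finite (ED (((j (D * m) : 𝓞 K) : K) ^ 2)).toAffine.Point := by
  obtain ⟨J, i1, i2, π, e, x, d1, d2, d3, d4, d5⟩ := data_of j hD hm h9 hT
  have h := (Pool.Agent.R419.CE.both parts j d1 d2 d3).2.1
  have hp0 : pD π e ≠ 0 := Pool.Agent.Y153.CTRAM.ne_zero_of d1
  have c0 : ∀ z : Ei, z ≠ 0 → ((j z : 𝓞 K) : K) ≠ 0 := fun z hz hh => hz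
    ((map_eq_zero_iff j j.injective).1 (RingOfIntegers.ext hh))
  refine fin_tw (u := ((j x : 𝓞 K) : K) ^ 2) (pow_ne_zero 2 (c0 x d4))
    (c0 _ (pow_ne_zero 2 hp0)) ?_ h
  rw [d5]
  push_cast [map_mul, map_pow]
  ring

/-- **The second twist over the fixed fields.** -/
theorem perN (K : Type) [Field K] [NumberField K] [IsCyclotomicExtension {3} ℚ K] {n : ℕ}
    {d : Fin n → 𝓞 K} (hd : Family d) {D : 𝓞 K} (hD : ClsK D) (htri : ∀ t, Tri (D * mt d t))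
    {F : Type} [Field F] [NumberField F] [Algebra K F] (x : Fin n → F)
    (hx : ∀ i, x i ^ 3 = algebraMap K F (d i : K))
    (hgen : ∀ L : Subfield F, (∀ k : K, algebraMap K F k ∈ L) → (∀ i, x i ∈ L) → L = ⊤)
    (hdeg : finrank K F = 3 ^ n) :
    (∃ L : ℂ → ℂ, Differentiable ℂ L ∧ L 1 ≠ 0 ∧ ∀ s : ℂ, 3 / 2 < s.re →
      HasProd (fun v : {v : HeightOneSpectrum (𝓞 F) |
        algebraMap (𝓞 K) (𝓞 F) (3 * D * ∏ i, d i) ∉ v.asIdeal} =>
          ef (algebraMap (𝓞 K) (𝓞 F) (D ^ 2 * (∏ i, d i) ^ 3)) s v.1) (L s)) ∧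
    Finite (ED ((algebraMap K F (D : K)) ^ 2)).toAffine.Point := by
  obtain ⟨⟨j, hj⟩, -⟩ := Pool.Agent.Y455.CTK.jex K
  have hω := Pool.Agent.R432.C.om_K j
  obtain ⟨z, rfl⟩ := j.surjective D
  have hz : ClsE z := (Pool.Agent.Y696.XK.cls_iff j hj z).1 hD
  have hz0 : z ≠ 0 := prm_ne_zero hz.1
  obtain ⟨hfd, hgal⟩ := Pool.Agent.R432.C.gal3 (F := F) hω (I := Fin n) (fun i => (d i : K)) x hx hgen
  have hd0 : ∀ i, (d i : K) ≠ 0 := fun i h => d_ne hd i (by exact_mod_cast h)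
  have hD0 : ((j z : 𝓞 K) : K) ≠ 0 := by
    intro h
    have h1 : (j z : 𝓞 K) = 0 := by exact_mod_cast h
    exact hz0 ((map_eq_zero_iff j j.injective).1 h1)
  choose δ hδ using fun i => j.surjective (d i)
  have hδ0 : ∀ i, δ i ≠ 0 := fun i h => d_ne hd i (by rw [← hδ, h, map_zero])
  have hmj : ∀ t : Fin n → ZMod 3, mt d t = j (∏ i, δ i ^ (t i).val) := by
    intro t
    unfold Pool.Agent.U854.TW.mt
    rw [map_prod]
    refine Finset.prod_congr rfl fun i _ => ?_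
    rw [map_pow, hδ]
  have hm3 : ∀ t : Fin n → ZMod 3, prm (∏ i, δ i ^ (t i).val) := by
    intro t
    have h3 := mt_three hd t
    rw [hmj] at h3
    have e1 : j (∏ i, δ i ^ (t i).val) - 1 = j (∏ i, δ i ^ (t i).val - 1) := by
      rw [map_sub, map_one]
    rw [e1, ← map_ofNat j 3, map_dvd_iff j] at h3
    exact h3
  have hm9 : ∀ t : Fin n → ZMod 3, (9 : ℤ) ∣ nr (∏ i, δ i ^ (t i).val) - 1 := by
    intro t
    have h3 := mt_nine hd t
    rw [hmj, hj] at h3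
    exact h3
  have hmT : ∀ t : Fin n → ZMod 3, Tri (j (z * ∏ i, δ i ^ (t i).val)) := by
    intro t
    rw [map_mul, ← hmj]
    exact htri t
  set P : Ei := ∏ i, δ i with hP
  have hP0 : P ≠ 0 := Finset.prod_ne_zero_iff.2 fun i _ => hδ0 i
  have hdat : ∀ t : Fin n → ZMod 3, ∃ (J : Type) (_ : Fintype J) (_ : Nonempty J)
      (π : J → Ei) (e : J → ZMod 3) (x : Ei), Dt π e ∧ Ker π e ∧
        ¬ (9 : ℤ) ∣ nr (pD π e) - 1 ∧ x ≠ 0 ∧
        (z ^ 2 * P ^ 3) * ∏ i, δ i ^ (t i).val = x ^ 3 * pD π e := by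
    intro t
    obtain ⟨J, i1, i2, π, e, y, d1, d2, d3, d4, d5⟩ :=
      data_of j hz (hm3 fun i => -t i) (hm9 fun i => -t i) (hmT fun i => -t i)
    refine ⟨J, i1, i2, π, fun i => -e i, y ^ 2 * (∏ i, π i ^ kk (e i)) * ∏ i, δ i ^ k2 (t i),
      d1.neg, d2.neg, nine_neg d1 d3, ?_, ?_⟩
    · refine mul_ne_zero (mul_ne_zero (pow_ne_zero 2 d4) ?_) ?_
      · exact Finset.prod_ne_zero_iff.2 fun i _ => pow_ne_zero _ (d1.pq i).prime.ne_zero
      · exact Finset.prod_ne_zero_iff.2 fun i _ => pow_ne_zero _ (hδ0 i)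
    · have h1 := prod_k2 δ t
      have h2 := pD_sq (π := π) (e := e)
      calc (z ^ 2 * P ^ 3) * ∏ i, δ i ^ (t i).val
          = z ^ 2 * (P ^ 3 * ∏ i, δ i ^ (t i).val) := by ring
        _ = z ^ 2 * ((∏ i, δ i ^ (-t i).val) ^ 2 * (∏ i, δ i ^ k2 (t i)) ^ 3) := by rw [h1]
        _ = (z * ∏ i, δ i ^ (-t i).val) ^ 2 * (∏ i, δ i ^ k2 (t i)) ^ 3 := by ring
        _ = (y ^ 3 * pD π e) ^ 2 * (∏ i, δ i ^ k2 (t i)) ^ 3 := by rw [d5]
        _ = y ^ 6 * (pD π e) ^ 2 * (∏ i, δ i ^ k2 (t i)) ^ 3 := by ring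
        _ = y ^ 6 * (pD π (fun i => -e i) * (∏ i, π i ^ kk (e i)) ^ 3) *
            (∏ i, δ i ^ k2 (t i)) ^ 3 := by rw [h2]
        _ = _ := by ring
  refine ⟨?_, ?_⟩
  · obtain ⟨L, h3, h4, h5⟩ := eulG j (mul_ne_zero (pow_ne_zero 2 hz0) (pow_ne_zero 3 hP0)) hδ0 hdat
      (F := F) x (fun i => by rw [hδ]; exact hx i) hgen (by rw [hdeg, Fintype.card_fin])
    refine ⟨L, h3, h4, fun s hs => ?_⟩
    have h6 := h5 s hs
    have hprod : ∏ i, d i = j P := by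
      rw [hP, map_prod]
      exact Finset.prod_congr rfl fun i _ => (hδ i).symm
    have e1 : io F j (z ^ 2 * P ^ 3) = algebraMap (𝓞 K) (𝓞 F) (j z ^ 2 * (∏ i, d i) ^ 3) := by
      rw [Pool.Agent.R432.V.io_apply, map_mul j, map_pow j, map_pow j, hprod]
    have hset : {v : HeightOneSpectrum (𝓞 F) | io F j (3 * (z ^ 2 * P ^ 3) * ∏ i, δ i) ∉ v.asIdeal} =
        {v : HeightOneSpectrum (𝓞 F) | algebraMap (𝓞 K) (𝓞 F) (3 * j z * ∏ i, d i) ∉ v.asIdeal} := by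
      ext v
      show (_ ∉ v.asIdeal) ↔ (_ ∉ v.asIdeal)
      refine not_congr ?_
      have e2 : algebraMap (𝓞 K) (𝓞 F) (3 * j z * ∏ i, d i) = io F j (3 * z * P) := by
        rw [Pool.Agent.R432.V.io_apply, map_mul j, map_mul j, map_ofNat, hprod]
      rw [e2, ← hP]
      have hv := v.isPrime
      simp only [map_mul, map_pow]
      rw [hv.mul_mem_iff_mem_or_mem, hv.mul_mem_iff_mem_or_mem, hv.mul_mem_iff_mem_or_mem,
        hv.mul_mem_iff_mem_or_mem, hv.mul_mem_iff_mem_or_mem,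
        hv.pow_mem_iff_mem 2 (by norm_num), hv.pow_mem_iff_mem 3 (by norm_num)]
      tauto
    rw [hset, e1] at h6
    exact h6
  · have h7 := Pool.Agent.R432.C.pts hω (fun i => (d i : K)) x hd0 hx hgen (pow_ne_zero 2 hD0) fun t => by
      have h8 := fin_sq j hz (hm3 fun i => -t i) (hm9 fun i => -t i) (hmT fun i => -t i)
      have hA0 : ∏ i, (d i : K) ≠ 0 := Finset.prod_ne_zero_iff.2 fun i _ => hd0 i
      have hB0 : ∏ i, (d i : K) ^ k2 (t i) ≠ 0 :=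
        Finset.prod_ne_zero_iff.2 fun i _ => pow_ne_zero _ (hd0 i)
      have hC0 : ∏ i, (d i : K) ^ (-t i).val ≠ 0 :=
        Finset.prod_ne_zero_iff.2 fun i _ => pow_ne_zero _ (hd0 i)
      have hcoe : ((j (z * ∏ i, δ i ^ (-t i).val) : 𝓞 K) : K) =
          ((j z : 𝓞 K) : K) * ∏ i, (d i : K) ^ (-t i).val := by
        rw [map_mul, ← hmj]
        unfold Pool.Agent.U854.TW.mt
        push_cast
        rfl
      rw [hcoe] at h8
      have h9 := prod_k2 (fun i => (d i : K)) t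
      refine fin_tw (u := (∏ i, (d i : K) ^ k2 (t i)) / ∏ i, (d i : K)) (div_ne_zero hB0 hA0)
        (pow_ne_zero 2 (mul_ne_zero hD0 hC0)) ?_ h8
      show ((j z : 𝓞 K) : K) ^ 2 * ∏ i, (d i : K) ^ (t i).val = _
      rw [div_pow, mul_pow, ← mul_div_assoc, eq_div_iff (pow_ne_zero 3 hA0)]
      linear_combination ((j z : 𝓞 K) : K) ^ 2 * h9
    rw [map_pow] at h7
    exact h7

end Pool.Agent.U374.Cub
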